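import Pool.Agent.H963.AD211.Com

/-!
# Task AD211 FIRST (project AD of helper211): the first passage
-/

set_option autoImplicit false

open Metric Set MeasureTheory Filter Topology

namespace Pool.Agent.H963.AD211

open Pool.Agent.H211.AD

/-- Nearly affine: a curve close to `z + P L a ^ q`. -/
lemma na_first {W : ℂ → ℂ} {q : ℕ} (hq : 1 ≤ q) {σ₀ lam : ℝ} (hσ₀ : 0 < σ₀) (hlam0 : 0 < lam)
    (hlam : lam < 1 / 4)
    (hpow : ∀ w : ℂ, ‖w‖ ≤ 2 * lam → ‖(1 + w) ^ (q - 1) - 1‖ ≤ 1 / 2)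
    (hW : DifferentiableOn ℂ W (ball 0 (2 * σ₀))) {z P L : ℂ} (hP : P ≠ 0) (hL : L ≠ 0)
    (hb : ∀ a ∈ ball (0 : ℂ) (2 * σ₀), ‖W a - z - P * L * a ^ q‖ ≤
      1 / (4 * 4 ^ q) * ‖L‖ * (2 * σ₀) ^ q * ‖P‖)
    {b : ℂ} (hb1 : σ₀ / 2 ≤ ‖b‖) (hb2 : ‖b‖ ≤ σ₀) :
    NA W b (lam * σ₀) (P * L * q * b ^ (q - 1)) (3 / 4) := by
  have hb0 : b ≠ 0 := norm_pos_iff.1 (by linarith)
  have hq0 : (q : ℂ) ≠ 0 := by exact_mod_cast (by omega : q ≠ 0)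
  have hsub : ∀ a ∈ ball b (lam * σ₀), closedBall a (σ₀ / 2) ⊆ ball (0 : ℂ) (2 * σ₀) := by
    intro a ha x hx
    rw [mem_ball] at ha ⊢
    rw [mem_closedBall] at hx
    have h0 : dist b 0 ≤ σ₀ := by simpa using hb2
    have h1 : lam * σ₀ < 1 / 4 * σ₀ := mul_lt_mul_of_pos_right hlam hσ₀
    calc dist x 0 ≤ dist x a + dist a b + dist b 0 := dist_triangle4 _ _ _ _
      _ < σ₀ / 2 + lam * σ₀ + σ₀ := by linarith
      _ ≤ 2 * σ₀ := by linarith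
  have hself : ∀ a ∈ ball b (lam * σ₀), a ∈ ball (0 : ℂ) (2 * σ₀) := fun a ha =>
    hsub a ha (mem_closedBall_self (by linarith))
  have hDn : ‖P * L * q * b ^ (q - 1)‖ = ‖P‖ * ‖L‖ * q * ‖b‖ ^ (q - 1) := by
    rw [norm_mul, norm_mul, norm_mul, norm_pow]; simp
  refine ⟨hW.mono fun a ha => hself a ha, ?_, ?_⟩
  · exact mul_ne_zero (mul_ne_zero (mul_ne_zero hP hL) hq0) (pow_ne_zero _ hb0)
  intro a ha
  have haσ := hself a ha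
  set g : ℂ → ℂ := fun a => W a - z - P * L * a ^ q with hg
  have hWa : HasDerivAt W (deriv W a) a :=
    (hW.differentiableAt (isOpen_ball.mem_nhds haσ)).hasDerivAt
  have hgd : DifferentiableOn ℂ g (ball 0 (2 * σ₀)) := by
    intro x hx
    have h1 := hW.differentiableAt (isOpen_ball.mem_nhds hx)
    exact ((h1.sub_const z).sub ((differentiableAt_id.pow q).const_mul (P * L))).differentiableWithinAt
  have hga : HasDerivAt g (deriv W a - P * L * (q * a ^ (q - 1))) a := by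
    have h1 := (hWa.sub_const z).sub ((hasDerivAt_pow q a).const_mul (P * L))
    exact h1
  have h1 : ‖deriv g a‖ ≤ 1 / (4 * 4 ^ q) * ‖L‖ * (2 * σ₀) ^ q * ‖P‖ / (σ₀ / 2) :=
    cauchy hgd (by linarith) (hsub a ha) hb
  rw [hga.deriv] at h1
  -- the power
  have h2 : ‖a ^ (q - 1) - b ^ (q - 1)‖ ≤ 1 / 2 * ‖b‖ ^ (q - 1) := by
    have e1 : a = b * (1 + (a - b) / b) := by field_simp; ring
    have e2 : ‖(a - b) / b‖ ≤ 2 * lam := by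
      rw [norm_div, div_le_iff₀ (norm_pos_iff.2 hb0)]
      have h3 : ‖a - b‖ ≤ lam * σ₀ := by
        have := mem_ball.1 ha
        rw [dist_eq_norm] at this
        exact this.le
      nlinarith
    have e3 := hpow _ e2
    have e4 : a ^ (q - 1) - b ^ (q - 1) = b ^ (q - 1) * ((1 + (a - b) / b) ^ (q - 1) - 1) := by
      conv_lhs => rw [e1]
      rw [mul_pow]; ring
    rw [e4, norm_mul, norm_pow, mul_comm]
    exact mul_le_mul_of_nonneg_right e3 (by positivity)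
  have h3 : ‖P * L * (q * a ^ (q - 1)) - P * L * q * b ^ (q - 1)‖ ≤
      1 / 2 * (‖P‖ * ‖L‖ * q * ‖b‖ ^ (q - 1)) := by
    have e1 : P * L * (q * a ^ (q - 1)) - P * L * q * b ^ (q - 1) =
        P * L * q * (a ^ (q - 1) - b ^ (q - 1)) := by ring
    have e2 : ‖P * L * q‖ = ‖P‖ * ‖L‖ * q := by rw [norm_mul, norm_mul]; simp
    rw [e1, norm_mul, e2]
    calc ‖P‖ * ‖L‖ * q * ‖a ^ (q - 1) - b ^ (q - 1)‖ ≤ ‖P‖ * ‖L‖ * q * (1 / 2 * ‖b‖ ^ (q - 1)) :=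
          mul_le_mul_of_nonneg_left h2 (by positivity)
      _ = _ := by ring
  have h4 : 1 / (4 * 4 ^ q) * ‖L‖ * (2 * σ₀) ^ q * ‖P‖ / (σ₀ / 2) ≤
      1 / 4 * (‖P‖ * ‖L‖ * q * ‖b‖ ^ (q - 1)) := by
    have e1 : (σ₀ / 2) ^ (q - 1) ≤ ‖b‖ ^ (q - 1) :=
      pow_le_pow_left₀ (by linarith) hb1 _
    have e2 : (1 : ℝ) ≤ q := by exact_mod_cast hq
    obtain ⟨m, rfl⟩ : ∃ m, q = m + 1 := ⟨q - 1, by omega⟩
    simp only [Nat.add_sub_cancel] at e1 ⊢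
    have e3 : 1 / (4 * 4 ^ (m + 1)) * ‖L‖ * (2 * σ₀) ^ (m + 1) * ‖P‖ / (σ₀ / 2) =
        1 / 4 * (‖P‖ * ‖L‖ * (σ₀ / 2) ^ m) := by
      have h4m : (4 : ℝ) ^ m = 2 ^ m * 2 ^ m := by
        rw [← mul_pow]; norm_num
      have h2m : (2 : ℝ) ^ m ≠ 0 := by positivity
      rw [mul_pow, div_pow, pow_succ, pow_succ, pow_succ, h4m]
      field_simp
      norm_num
    rw [e3]
    have e4 : ‖P‖ * ‖L‖ * (σ₀ / 2) ^ m ≤ ‖P‖ * ‖L‖ * ((m + 1 : ℕ) : ℝ) * ‖b‖ ^ m := by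
      calc ‖P‖ * ‖L‖ * (σ₀ / 2) ^ m ≤ ‖P‖ * ‖L‖ * ‖b‖ ^ m :=
            mul_le_mul_of_nonneg_left e1 (by positivity)
        _ = ‖P‖ * ‖L‖ * 1 * ‖b‖ ^ m := by ring
        _ ≤ _ := by gcongr
    linarith
  rw [hDn]
  calc ‖deriv W a - P * L * q * b ^ (q - 1)‖
      = ‖(deriv W a - P * L * (q * a ^ (q - 1))) +
        (P * L * (q * a ^ (q - 1)) - P * L * q * b ^ (q - 1))‖ := by ring_nf
    _ ≤ _ := norm_add_le _ _
    _ ≤ 1 / 4 * (‖P‖ * ‖L‖ * q * ‖b‖ ^ (q - 1)) + 1 / 2 * (‖P‖ * ‖L‖ * q * ‖b‖ ^ (q - 1)) :=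
        add_le_add (h1.trans h4) h3
    _ = 3 / 4 * (‖P‖ * ‖L‖ * q * ‖b‖ ^ (q - 1)) := by ring

/-- The first order expansion of the first passage. -/
lemma expand (hFOL : S_FOL) {F : ℂ → ℂ → ℂ} {A : ℂ → ℂ → Prop} {f : ℂ → ℂ} {K : Set ℂ} {q : ℕ}
    {ρ₁ δ₁ C₁ : ℝ} (hF : Fam F A f K q ρ₁ δ₁ C₁) {Cr : Finset ℂ} {ℓ : ℂ → ℕ}
    {δ₀ c₀ μ s C₂ S₀ : ℝ} {c : ℂ} (hO : OD f K Cr ℓ δ₀ δ₁ c₀ μ s C₂ S₀ (f c)) (hS₀ : 0 < S₀)
    {ζ h : ℂ → ℂ} {C₃ : ℝ} {L : ℂ} (hM : Mk F f K q ρ₁ δ₁ c ζ h C₃ L)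
    {θ : ℝ} (hθ : 0 < θ) (h16 : 16 * C₂ * θ ≤ 1) (h4 : 4 * θ ≤ 1) {N : ℕ} {t r σ₀ : ℝ}
    (ht : 0 < t) (hr : 0 < r) (hσ₀ : 0 < σ₀)
    (hN : ∀ i < N, t * ‖deriv f^[i] (f c)‖ ≤
      θ / ((i : ℝ) + 1) ^ 2 * (s * dC Cr (f^[i] (f c))))
    {ε₂ : ℝ} (hsum : ‖h c + ∑ i ∈ Finset.range N, h (f^[i] (f c)) / deriv f^[i + 1] (f c) - L‖ ≤
      ε₂)
    {a : ℂ} (ha : ‖a‖ < ρ₁) (har : ‖a‖ ^ q ≤ r) (haσ : ‖a‖ ≤ 2 * σ₀)
    (hw : ‖F a (ζ a) - f c‖ + S₀ * (C₁ * r) ≤ t) :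
    ‖(F a)^[N] (F a (ζ a)) - f^[N] (f c) - deriv f^[N] (f c) * L * a ^ q‖ ≤
      (8 * C₂ * θ * t + (C₃ * (2 * σ₀ * (1 + S₀) + 2 * θ * S₀) + ε₂) * r) *
        ‖deriv f^[N] (f c)‖ := by
  obtain ⟨e1, e2, e3, _, _⟩ := evolve hFOL hF hO hθ h16 h4 (N := N) (t := t) (r := r) ht hr.le hN
    (a := a) (w := F a (ζ a)) ha har hw
  have hC₃ := hM.C₃_pos
  set y : ℕ → ℂ := fun i => (F a)^[i] (F a (ζ a)) with hy
  set S : ℂ := ∑ i ∈ Finset.range N, (F a (y i) - f (y i)) / deriv f^[i + 1] (f c) with hS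
  set S' : ℂ := ∑ i ∈ Finset.range N, h (f^[i] (f c)) / deriv f^[i + 1] (f c) with hS'
  have haq1 : ‖a‖ ^ (q + 1) ≤ r * (2 * σ₀) := by
    rw [pow_succ]; exact mul_le_mul har haσ (norm_nonneg _) hr.le
  -- first error
  have f1 : ‖F a (ζ a) - f c - a ^ q * h c‖ ≤ C₃ * (r * (2 * σ₀)) :=
    (hM.val a ha).trans (mul_le_mul_of_nonneg_left haq1 hC₃.le)
  -- second error
  have f2 : ‖S - a ^ q * S'‖ ≤ S₀ * (C₃ * (r * (2 * σ₀)) + r * (C₃ * (2 * θ))) := by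
    have g0 : S - a ^ q * S' = ∑ i ∈ Finset.range N,
        (F a (y i) - f (y i) - a ^ q * h (f^[i] (f c))) / deriv f^[i + 1] (f c) := by
      rw [hS, hS', Finset.mul_sum, ← Finset.sum_sub_distrib]
      apply Finset.sum_congr rfl
      intro i _
      ring
    have g1 : ∀ i ∈ Finset.range N,
        ‖(F a (y i) - f (y i) - a ^ q * h (f^[i] (f c))) / deriv f^[i + 1] (f c)‖ ≤
          (C₃ * (r * (2 * σ₀)) + r * (C₃ * (2 * θ))) * ‖deriv f^[i + 1] (f c)‖⁻¹ := by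
      intro i hi
      have hi' : i < N := Finset.mem_range.1 hi
      rw [norm_div, div_eq_mul_inv]
      apply mul_le_mul_of_nonneg_right _ (inv_nonneg.2 (norm_nonneg _))
      have k1 := hM.fam a (y i) ha (e1 i hi').1
      have k2 : ‖h (y i) - h (f^[i] (f c))‖ ≤ C₃ * (2 * θ) := by
        rw [norm_sub_rev]
        refine (hM.lip _ (hO.mem i) _ (e1 i hi').1).trans ?_
        apply mul_le_mul_of_nonneg_left _ hC₃.le
        rw [norm_sub_rev]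
        have k3 := e2 i hi'.le
        have k4 := hN i hi'
        have k5 : θ / ((i : ℝ) + 1) ^ 2 * (s * dC Cr (f^[i] (f c))) ≤ θ := by
          have k6 : θ / ((i : ℝ) + 1) ^ 2 ≤ θ :=
            div_le_self hθ.le (one_le_pow₀ (by linarith [Nat.cast_nonneg (α := ℝ) i]))
          calc _ ≤ θ * 1 := mul_le_mul k6 (hO.xpos i).2 (hO.xpos i).1.le hθ.le
            _ = θ := mul_one _
        calc ‖y i - f^[i] (f c)‖ ≤ 2 * t * ‖deriv f^[i] (f c)‖ := k3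
          _ = 2 * (t * ‖deriv f^[i] (f c)‖) := by ring
          _ ≤ 2 * θ := by linarith
      calc ‖F a (y i) - f (y i) - a ^ q * h (f^[i] (f c))‖
          = ‖(F a (y i) - f (y i) - a ^ q * h (y i)) +
              a ^ q * (h (y i) - h (f^[i] (f c)))‖ := by ring_nf
        _ ≤ ‖F a (y i) - f (y i) - a ^ q * h (y i)‖ +
              ‖a ^ q * (h (y i) - h (f^[i] (f c)))‖ := norm_add_le _ _
        _ ≤ C₃ * (r * (2 * σ₀)) + r * (C₃ * (2 * θ)) := by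
            rw [norm_mul, norm_pow]
            apply add_le_add (k1.trans (mul_le_mul_of_nonneg_left haq1 hC₃.le))
            exact mul_le_mul har k2 (norm_nonneg _) hr.le
    rw [g0]
    calc _ ≤ ∑ i ∈ Finset.range N,
          (C₃ * (r * (2 * σ₀)) + r * (C₃ * (2 * θ))) * ‖deriv f^[i + 1] (f c)‖⁻¹ :=
          (norm_sum_le _ _).trans (Finset.sum_le_sum g1)
      _ = (C₃ * (r * (2 * σ₀)) + r * (C₃ * (2 * θ))) *
          ∑ i ∈ Finset.range N, ‖deriv f^[i + 1] (f c)‖⁻¹ := by rw [Finset.mul_sum]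
      _ ≤ (C₃ * (r * (2 * σ₀)) + r * (C₃ * (2 * θ))) * S₀ :=
          mul_le_mul_of_nonneg_left (hO.orb.sum N) (by positivity)
      _ = _ := by ring
  have f3 : ‖a ^ q * (h c + S' - L)‖ ≤ r * ε₂ := by
    rw [norm_mul, norm_pow]
    exact mul_le_mul har hsum (norm_nonneg _) hr.le
  have f4 : ‖(F a (ζ a) - f c) + S - L * a ^ q‖ ≤
      (C₃ * (2 * σ₀ * (1 + S₀) + 2 * θ * S₀) + ε₂) * r := by
    calc ‖(F a (ζ a) - f c) + S - L * a ^ q‖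
        = ‖(F a (ζ a) - f c - a ^ q * h c) + (S - a ^ q * S') + a ^ q * (h c + S' - L)‖ := by
          ring_nf
      _ ≤ ‖F a (ζ a) - f c - a ^ q * h c‖ + ‖S - a ^ q * S'‖ + ‖a ^ q * (h c + S' - L)‖ :=
          norm_add₃_le
      _ ≤ C₃ * (r * (2 * σ₀)) + S₀ * (C₃ * (r * (2 * σ₀)) + r * (C₃ * (2 * θ))) + r * ε₂ :=
          add_le_add (add_le_add f1 f2) f3
      _ = _ := by ring
  calc ‖(F a)^[N] (F a (ζ a)) - f^[N] (f c) - deriv f^[N] (f c) * L * a ^ q‖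
      = ‖((F a)^[N] (F a (ζ a)) - f^[N] (f c) - deriv f^[N] (f c) * ((F a (ζ a) - f c) + S)) +
          deriv f^[N] (f c) * ((F a (ζ a) - f c) + S - L * a ^ q)‖ := by ring_nf
    _ ≤ ‖(F a)^[N] (F a (ζ a)) - f^[N] (f c) - deriv f^[N] (f c) * ((F a (ζ a) - f c) + S)‖ +
          ‖deriv f^[N] (f c) * ((F a (ζ a) - f c) + S - L * a ^ q)‖ := norm_add_le _ _
    _ ≤ 8 * C₂ * θ * t * ‖deriv f^[N] (f c)‖ +
          ‖deriv f^[N] (f c)‖ * ((C₃ * (2 * σ₀ * (1 + S₀) + 2 * θ * S₀) + ε₂) * r) := by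
        rw [norm_mul]
        exact add_le_add e3 (mul_le_mul_of_nonneg_left f4 (norm_nonneg _))
    _ = _ := by ring

lemma tendsto_scale {q : ℕ} (hq : 1 ≤ q) :
    Tendsto (fun σ : ℝ => (2 * σ) ^ q) (𝓝[>] 0) (𝓝[>] 0) := by
  apply tendsto_nhdsWithin_of_tendsto_nhds_of_eventually_within
  · have h1 : Tendsto (fun σ : ℝ => (2 * σ) ^ q) (𝓝 0) (𝓝 ((2 * 0) ^ q)) :=
      ((continuous_const.mul continuous_id).pow q).tendsto 0
    rw [mul_zero, zero_pow (by omega)] at h1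
    exact h1.mono_left nhdsWithin_le_nhds
  · filter_upwards [self_mem_nhdsWithin] with σ hσ
    have : (0 : ℝ) < σ := hσ
    exact pow_pos (show (0 : ℝ) < 2 * σ by linarith) q

theorem t_FIRST (hNL : S_NL) (hFOL : S_FOL) (hTIME : S_TIME) (hCOV : S_COV) : S_FIRST := by
  intro f U K Cr ℓ δ₀ Cp rp c₀ μ hS F A q ρ₁ δ₁ C₁ hF hland c ζ h C₃ L hc hM
  have hne : Cr.Nonempty := ⟨c, hc⟩
  obtain ⟨s, C₂, S₀, hs, hs1, hC₂, hS₀, hOD⟩ := od_exists hNL hS hne hF.δ₁_pos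
  have hO := hOD c hc
  have hLc : ∀ c ∈ Cr, ℓ c ≤ Cr.sup ℓ := fun c hc => Finset.le_sup hc
  have hC₂0 : 0 < C₂ := by linarith
  have hC₃ := hM.C₃_pos
  have hC₁ := hF.C₁_pos
  have hLn : 0 < ‖L‖ := norm_pos_iff.2 hM.ne
  -- constants
  obtain ⟨Ct, hCt⟩ : ∃ Ct : ℝ, Ct = 2 * C₃ + S₀ * C₁ + 1 := ⟨_, rfl⟩
  have hCt1 : 1 ≤ Ct := by rw [hCt]; nlinarith [mul_pos hS₀ hC₁]
  have hCt0 : 0 < Ct := by linarith
  obtain ⟨ε₁, hε₁⟩ : ∃ ε₁ : ℝ, ε₁ = 1 / (4 * 4 ^ q) := ⟨_, rfl⟩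
  have hε₁0 : 0 < ε₁ := by rw [hε₁]; positivity
  obtain ⟨lam, hlam0, hlam4, hlamp⟩ : ∃ lam : ℝ, 0 < lam ∧ lam < 1 / 4 ∧
      ∀ w : ℂ, ‖w‖ ≤ 2 * lam → ‖(1 + w) ^ (q - 1) - 1‖ ≤ 1 / 2 := by
    have h1 : ContinuousAt (fun w : ℂ => (1 + w) ^ (q - 1)) 0 :=
      ((continuous_const.add continuous_id).pow (q - 1)).continuousAt
    obtain ⟨d, hd, hd'⟩ := Metric.continuousAt_iff.1 h1 (1 / 2) (by norm_num)
    refine ⟨min (d / 4) (1 / 8), lt_min (by linarith) (by norm_num),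
      (min_le_right _ _).trans_lt (by norm_num), fun w hw => ?_⟩
    have h2 : dist w 0 < d := by
      rw [dist_zero_right]
      have := min_le_left (d / 4) (1 / 8 : ℝ)
      linarith
    have h3 := hd' h2
    rw [dist_eq_norm] at h3
    simpa using h3.le
  obtain ⟨θ, hθ, hθa, hθb, hθc, hθd⟩ : ∃ θ : ℝ, 0 < θ ∧ 16 * C₂ * θ ≤ 1 ∧ 4 * θ ≤ 1 ∧
      8 * C₂ * θ * Ct ≤ ε₁ * ‖L‖ / 4 ∧ C₃ * (2 * θ * S₀) ≤ ε₁ * ‖L‖ / 4 := by
    refine ⟨min (min (1 / (16 * C₂)) (1 / 4))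
      (min (ε₁ * ‖L‖ / (32 * C₂ * Ct)) (ε₁ * ‖L‖ / (8 * C₃ * S₀))), ?_, ?_, ?_, ?_, ?_⟩
    · exact lt_min (lt_min (by positivity) (by norm_num)) (lt_min (by positivity) (by positivity))
    · have h1 := (min_le_left (min (1 / (16 * C₂)) (1 / 4))
        (min (ε₁ * ‖L‖ / (32 * C₂ * Ct)) (ε₁ * ‖L‖ / (8 * C₃ * S₀)))).trans (min_le_left _ _)
      rw [le_div_iff₀ (by positivity)] at h1
      linarith
    · have h1 := (min_le_left (min (1 / (16 * C₂)) (1 / 4))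
        (min (ε₁ * ‖L‖ / (32 * C₂ * Ct)) (ε₁ * ‖L‖ / (8 * C₃ * S₀)))).trans (min_le_right _ _)
      linarith
    · have h1 := (min_le_right (min (1 / (16 * C₂)) (1 / 4))
        (min (ε₁ * ‖L‖ / (32 * C₂ * Ct)) (ε₁ * ‖L‖ / (8 * C₃ * S₀)))).trans (min_le_left _ _)
      rw [le_div_iff₀ (by positivity)] at h1
      linarith
    · have h1 := (min_le_right (min (1 / (16 * C₂)) (1 / 4))
        (min (ε₁ * ‖L‖ / (32 * C₂ * Ct)) (ε₁ * ‖L‖ / (8 * C₃ * S₀)))).trans (min_le_right _ _)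
      rw [le_div_iff₀ (by positivity)] at h1
      linarith
  obtain ⟨κ₂, hκ0, hκ1, C_N, hCN, t₁, ht₁, ht₁1, htime⟩ :=
    hTIME C₂ c₀ μ θ (Cr.sup ℓ) hC₂ hS.c₀_pos hS.μ_gt hθ (by linarith)
  obtain ⟨η₁, hη₁, c₁, hc₁, CL, hCL, rL, hrL, hland⟩ :=
    hland (1 - κ₂ / 2) (by linarith) (by linarith)
  obtain ⟨CC, hCC, hcov⟩ := hCOV
  have hPpos : ∀ n, 0 < ‖deriv f^[n] (f c)‖ := fun n => lt_of_lt_of_le
      (by have := hS.c₀_pos; have := hS.μ_gt; positivity) (hO.ce n)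
  -- `N` is large
  obtain ⟨N₁, hN₁⟩ : ∃ N₁ : ℕ, ∀ N ≥ N₁,
      ‖h c + ∑ i ∈ Finset.range N, h (f^[i] (f c)) / deriv f^[i + 1] (f c) - L‖ ≤
        ε₁ * ‖L‖ / 4 := by
    have h1 := hM.sum.tendsto_sum_nat
    obtain ⟨N₁, hN₁⟩ := (Metric.tendsto_atTop.1 h1) (ε₁ * ‖L‖ / 4) (by positivity)
    refine ⟨N₁, fun N hN => ?_⟩
    have h2 := hN₁ N hN
    rw [dist_eq_norm] at h2
    have e : h c + ∑ i ∈ Finset.range N, h (f^[i] (f c)) / deriv f^[i + 1] (f c) - L =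
        ∑ i ∈ Finset.range N, h (f^[i] (f c)) / deriv f^[i + 1] (f c) - (L - h c) := by ring
    rw [e]; exact h2.le
  obtain ⟨t₂, ht₂, ht₂'⟩ : ∃ t₂ > (0 : ℝ), ∀ t, 0 < t → t ≤ t₂ → ∀ i < N₁,
      t * ‖deriv f^[i] (f c)‖ ≤ θ / ((i : ℝ) + 1) ^ 2 * (s * dC Cr (f^[i] (f c))) := by
    have key : ∀ M : ℕ, ∃ t₂ > (0 : ℝ), ∀ t, 0 < t → t ≤ t₂ → ∀ i < M,
        t * ‖deriv f^[i] (f c)‖ ≤ θ / ((i : ℝ) + 1) ^ 2 * (s * dC Cr (f^[i] (f c))) := by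
      intro M
      induction M with
      | zero => exact ⟨1, one_pos, fun t _ _ i hi => absurd hi (Nat.not_lt_zero i)⟩
      | succ M ih =>
        obtain ⟨t₂, ht₂, ht₂'⟩ := ih
        have hx := (hO.xpos M).1
        have hb : 0 < θ / ((M : ℝ) + 1) ^ 2 * (s * dC Cr (f^[M] (f c))) := by positivity
        refine ⟨min t₂ (θ / ((M : ℝ) + 1) ^ 2 * (s * dC Cr (f^[M] (f c))) /
          ‖deriv f^[M] (f c)‖), lt_min ht₂ (div_pos hb (hPpos M)), fun t ht htt i hi => ?_⟩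
        rcases Nat.lt_succ_iff_lt_or_eq.1 hi with h1 | h1
        · exact ht₂' t ht (htt.trans (min_le_left _ _)) i h1
        · subst h1
          have := htt.trans (min_le_right _ _)
          rwa [le_div_iff₀ (hPpos i)] at this
    exact key N₁
  have hts := tendsto_scale hF.q_pos
  have hsmall : ∀ᶠ σ₀ in 𝓝[>] (0 : ℝ), ((2 * σ₀) ^ q < 1 ∧ (2 * σ₀) ^ q < rL ∧
      Ct * (2 * σ₀) ^ q ≤ t₁ ∧ Ct * (2 * σ₀) ^ q ≤ t₂) ∧ (σ₀ < ρ₁ / 2 ∧ σ₀ < 1 / 2 ∧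
      C₃ * (2 * σ₀ * (1 + S₀)) ≤ ε₁ * ‖L‖ / 4) ∧
      ((2 * σ₀) ^ q) ^ η₁ * (C_N * Real.log (1 / (2 * σ₀) ^ q) + 1) ^ 2 ≤ θ * s ∧
      2 * Ct * ((2 * σ₀) ^ q) ^ η₁ ≤ ‖L‖ * lam * (2 / 4 ^ q) := by
    have hσρ : 0 < ρ₁ / 2 := by linarith [hF.ρ₁_pos]
    have hσe : 0 < ε₁ * ‖L‖ / 4 / (C₃ * (2 * (1 + S₀))) := by positivity
    filter_upwards [hts.eventually (Ioo_mem_nhdsGT (zero_lt_one (α := ℝ))),
      hts.eventually (Ioo_mem_nhdsGT hrL),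
      hts.eventually (Ioo_mem_nhdsGT (div_pos ht₁ hCt0)),
      hts.eventually (Ioo_mem_nhdsGT (div_pos ht₂ hCt0)),
      Ioo_mem_nhdsGT hσρ, Ioo_mem_nhdsGT (show (0 : ℝ) < 1 / 2 by norm_num),
      Ioo_mem_nhdsGT hσe,
      hts.eventually (ev_log hη₁ C_N (ε := θ * s) (by positivity)),
      hts.eventually (ev_rpow hη₁ (2 * Ct) (ε := ‖L‖ * lam * (2 / 4 ^ q)) (by positivity))]
      with σ₀ h1 h2 h3 h4 h5 h6 h7 h8 h9
    refine ⟨⟨h1.2, h2.2, ?_, ?_⟩, ⟨h5.2, h6.2, ?_⟩, h8, h9⟩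
    · have := h3.2
      rw [lt_div_iff₀ hCt0] at this
      linarith
    · have := h4.2
      rw [lt_div_iff₀ hCt0] at this
      linarith
    · have := h7.2
      rw [lt_div_iff₀ (by positivity)] at this
      linarith
  obtain ⟨σ₁, hσ₁, hσ₁s⟩ := mem_nhdsGT_iff_exists_Ioo_subset.1 hsmall
  refine ⟨q * c₁, by have := hF.q_pos; positivity, 16 * CC * CL * 2 ^ (q * c₁), by positivity,
    σ₁, hσ₁, ?_⟩
  intro σ₀ hσ₀ hσσ₁
  obtain ⟨⟨g1, g2, g3, g4⟩, ⟨g5, g6, g7⟩, g8, g9⟩ := hσ₁s ⟨hσ₀, hσσ₁⟩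
  obtain ⟨r, hre⟩ : ∃ r : ℝ, r = (2 * σ₀) ^ q := ⟨_, rfl⟩
  rw [← hre] at g1 g2 g3 g4 g8 g9
  have hr : 0 < r := by rw [hre]; positivity
  have ht : 0 < Ct * r := by positivity
  obtain ⟨N, hN1, hN2, hN3, hN4⟩ := htime (fun n => ‖deriv f^[n] (f c)‖)
    (fun n => s * dC Cr (f^[n] (f c))) (by simp) hO.ce hO.xpos hO.grow (Ct * r) ht g3
  have hNN₁ : N₁ ≤ N := by
    by_contra hcon
    push Not at hcon
    have := ht₂' (Ct * r) ht g4 N hcon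
    linarith
  have hP := hPpos N
  have hρ : ∀ a ∈ ball (0 : ℂ) (2 * σ₀), ‖a‖ < ρ₁ := by
    intro a ha
    have : ‖a‖ < 2 * σ₀ := by simpa using ha
    linarith
  have hq : ∀ a ∈ ball (0 : ℂ) (2 * σ₀), ‖a‖ ^ q ≤ r := by
    intro a ha
    have : ‖a‖ < 2 * σ₀ := by simpa using ha
    rw [hre]
    exact pow_le_pow_left₀ (norm_nonneg _) this.le q
  have hval : ∀ a ∈ ball (0 : ℂ) (2 * σ₀), ‖F a (ζ a) - f c‖ + S₀ * (C₁ * r) ≤ Ct * r := by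
    intro a ha
    have h1 := hM.val a (hρ a ha)
    have h2 : ‖a‖ ≤ 1 := by
      have : ‖a‖ < 2 * σ₀ := by simpa using ha
      linarith
    have h3 : ‖a‖ ^ (q + 1) ≤ r := by
      rw [pow_succ]
      calc ‖a‖ ^ q * ‖a‖ ≤ r * 1 := mul_le_mul (hq a ha) h2 (norm_nonneg _) hr.le
        _ = r := mul_one r
    have h4 : ‖a ^ q * h c‖ ≤ r * C₃ := by
      rw [norm_mul, norm_pow]
      exact mul_le_mul (hq a ha) (hM.bd c (hS.critK c hc)) (norm_nonneg _) hr.le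
    have h5 : ‖F a (ζ a) - f c‖ ≤ C₃ * r + r * C₃ := by
      calc ‖F a (ζ a) - f c‖ = ‖(F a (ζ a) - f c - a ^ q * h c) + a ^ q * h c‖ := by ring_nf
        _ ≤ _ := norm_add_le _ _
        _ ≤ _ := add_le_add (h1.trans (mul_le_mul_of_nonneg_left h3 hC₃.le)) h4
    rw [hCt]
    nlinarith
  have hev : ∀ a ∈ ball (0 : ℂ) (2 * σ₀), _ := fun a ha =>
    evolve hFOL hF hO hθ hθa hθb (N := N) (t := Ct * r) (r := r) ht hr.le hN1 (a := a)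
      (w := F a (ζ a)) (hρ a ha) (hq a ha) (hval a ha)
  have hud : DifferentiableOn ℂ (fun a => F a (ζ a)) (ball 0 (2 * σ₀)) := by
    intro a ha
    have h2 : DifferentiableAt ℂ (fun p : ℂ × ℂ => F p.1 p.2) (a, ζ a) :=
      (hF.smooth a _ (hρ a ha) (hM.near a (hρ a ha))).differentiableAt (by norm_num)
    have h3 : DifferentiableAt ℂ (fun a => (a, ζ a)) a :=
      differentiableAt_id.prodMk (hM.diff a (hρ a ha))
    exact (DifferentiableAt.comp a h2 h3).differentiableWithinAt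
  have hW : DifferentiableOn ℂ (fun a => (F a)^[N] (F a (ζ a))) (ball 0 (2 * σ₀)) :=
    curve_diff hF isOpen_ball hρ hud N fun a ha i hi => ((hev a ha).1 i hi).1
  have hbnd : ∀ a ∈ ball (0 : ℂ) (2 * σ₀),
      ‖(F a)^[N] (F a (ζ a)) - f^[N] (f c) - deriv f^[N] (f c) * L * a ^ q‖ ≤
        1 / (4 * 4 ^ q) * ‖L‖ * (2 * σ₀) ^ q * ‖deriv f^[N] (f c)‖ := by
    intro a ha
    have haσ : ‖a‖ ≤ 2 * σ₀ := by
      have : ‖a‖ < 2 * σ₀ := by simpa using ha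
      exact this.le
    have h1 := expand hFOL hF hO hS₀ hM hθ hθa hθb (N := N) (t := Ct * r) (r := r) ht hr hσ₀ hN1
      (hN₁ N hNN₁) (hρ a ha) (hq a ha) haσ (hval a ha)
    refine h1.trans ?_
    rw [← hε₁, ← hre]
    have h2 : 8 * C₂ * θ * (Ct * r) +
        (C₃ * (2 * σ₀ * (1 + S₀) + 2 * θ * S₀) + ε₁ * ‖L‖ / 4) * r ≤ ε₁ * ‖L‖ * r := by
      have h3 : 8 * C₂ * θ * Ct + (C₃ * (2 * σ₀ * (1 + S₀) + 2 * θ * S₀) + ε₁ * ‖L‖ / 4) ≤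
          ε₁ * ‖L‖ := by linarith
      calc _ = (8 * C₂ * θ * Ct +
            (C₃ * (2 * σ₀ * (1 + S₀) + 2 * θ * S₀) + ε₁ * ‖L‖ / 4)) * r := by ring
        _ ≤ _ := mul_le_mul_of_nonneg_right h3 hr.le
    exact mul_le_mul_of_nonneg_right h2 hP.le
  have hlog : (N : ℝ) + 1 ≤ C_N * Real.log (1 / r) + 1 := by
    have h1 : r ≤ Ct * r := by nlinarith
    have h2 : Real.log (1 / (Ct * r)) ≤ Real.log (1 / r) := by
      apply Real.log_le_log (by positivity)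
      exact one_div_le_one_div_of_le hr h1
    have h3 := mul_le_mul_of_nonneg_left h2 hCN.le
    linarith
  have hN0 : 0 < (N : ℝ) + 1 := by positivity
  have hϑ1 : r ^ η₁ ≤ θ * s / ((N : ℝ) + 1) ^ 2 := by
    rw [le_div_iff₀ (by positivity)]
    refine le_trans ?_ g8
    apply mul_le_mul_of_nonneg_left _ (Real.rpow_nonneg hr.le _)
    exact pow_le_pow_left₀ hN0.le hlog 2
  have hϑ2 : θ * s / ((N : ℝ) + 1) ^ 2 ≤ 1 := by
    rw [div_le_one (by positivity)]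
    have : (1 : ℝ) ≤ ((N : ℝ) + 1) ^ 2 := one_le_pow₀ (by linarith [Nat.cast_nonneg (α := ℝ) N])
    nlinarith
  have hϑ3 : θ * s / ((N : ℝ) + 1) ^ 2 * dC Cr (f^[N] (f c)) ≤
      2 * (Ct * r) * ‖deriv f^[N] (f c)‖ := by
    have e : θ * s / ((N : ℝ) + 1) ^ 2 * dC Cr (f^[N] (f c)) =
        θ / ((N : ℝ) + 1) ^ 2 * (s * dC Cr (f^[N] (f c))) := by ring
    rw [e]
    have : 0 < Ct * r * ‖deriv f^[N] (f c)‖ := by positivity
    linarith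
  have hTl : ∀ c' ∈ Cr, ‖f^[N] (f c) - c'‖ ≤ dC Cr (f^[N] (f c)) →
      r ^ (1 - κ₂ / 2) ≤ (2 * (Ct * r) * ‖deriv f^[N] (f c)‖) ^ ℓ c' := by
    intro c' hc' hcd
    have h1 := hN4 (ℓ c') (by have := hS.deg c' hc'; omega) (hLc c' hc') (hO.crit N c' hc' hcd)
    have h2 : (Ct * r * ‖deriv f^[N] (f c)‖) ^ ℓ c' ≤
        (2 * (Ct * r) * ‖deriv f^[N] (f c)‖) ^ ℓ c' := by
      apply pow_le_pow_left₀ (by positivity)
      have : 0 < Ct * r * ‖deriv f^[N] (f c)‖ := by positivity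
      linarith
    have h3 : r ^ (1 - κ₂ / 2) ≤ (Ct * r) ^ (1 - κ₂) := by
      calc r ^ (1 - κ₂ / 2) ≤ r ^ (1 - κ₂) :=
            Real.rpow_le_rpow_of_exponent_ge hr g1.le (by linarith)
        _ ≤ (Ct * r) ^ (1 - κ₂) := Real.rpow_le_rpow hr.le (by nlinarith) (by linarith)
    exact h3.trans (h1.trans h2)
  have hcovr := hcov 0 (2 * σ₀) (lam * σ₀ / 2) (4 * (CL * r ^ c₁))
    {a | σ₀ / 2 ≤ ‖a‖ ∧ ‖a‖ ≤ σ₀} {a | ¬ A a (ζ a)} (by positivity) (by nlinarith)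
    (by positivity) (fun a ha => by
      have := ha.2
      rw [mem_ball, dist_zero_right]; linarith) ?_
  · refine (measure_mono ?_).trans (hcovr.trans (ENNReal.ofReal_le_ofReal ?_))
    · rintro a ⟨ha1, ha2, hna⟩
      exact ⟨hna, ha1, ha2⟩
    · have e1 : r ^ c₁ = 2 ^ ((q : ℝ) * c₁) * σ₀ ^ ((q : ℝ) * c₁) := by
        rw [hre, ← Real.rpow_natCast, ← Real.rpow_mul (by positivity),
          Real.mul_rpow (by norm_num) hσ₀.le]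
      have e2 : σ₀ ^ ((2 : ℝ) + q * c₁) = σ₀ ^ 2 * σ₀ ^ ((q : ℝ) * c₁) := by
        rw [Real.rpow_add hσ₀]; norm_num
      rw [e1, e2]
      exact le_of_eq (by ring)
  · intro b hb
    obtain ⟨hb1, hb2⟩ := hb
    have hsubb : ∀ a ∈ ball b (lam * σ₀), a ∈ ball (0 : ℂ) (2 * σ₀) := by
      intro a ha
      rw [mem_ball] at ha ⊢
      have h0 : dist b 0 ≤ σ₀ := by simpa using hb2
      calc dist a 0 ≤ dist a b + dist b 0 := dist_triangle _ _ _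
        _ < lam * σ₀ + σ₀ := by linarith
        _ ≤ 2 * σ₀ := by nlinarith
    have hPne : deriv f^[N] (f c) ≠ 0 := norm_pos_iff.1 hP
    have hNAW := na_first hF.q_pos hσ₀ hlam0 hlam4 hlamp hW hPne hM.ne hbnd hb1 hb2
    have hTD : r ^ η₁ * (2 * (Ct * r) * ‖deriv f^[N] (f c)‖) ≤
        ‖deriv f^[N] (f c) * L * q * b ^ (q - 1)‖ * (lam * σ₀) := by
      have e0 : ‖deriv f^[N] (f c) * L * q * b ^ (q - 1)‖ =
          ‖deriv f^[N] (f c)‖ * ‖L‖ * q * ‖b‖ ^ (q - 1) := by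
        rw [norm_mul, norm_mul, norm_mul, norm_pow]; simp
      rw [e0]
      have e1 : (1 : ℝ) ≤ q := by exact_mod_cast hF.q_pos
      have e2 : (σ₀ / 2) ^ (q - 1) ≤ ‖b‖ ^ (q - 1) := pow_le_pow_left₀ (by linarith) hb1 _
      have e3 : 2 / 4 ^ q * r = (σ₀ / 2) ^ (q - 1) * σ₀ := by
        rw [hre]
        obtain ⟨m, hm⟩ : ∃ m, q = m + 1 := ⟨q - 1, by have := hF.q_pos; omega⟩
        rw [hm]
        simp only [Nat.add_sub_cancel]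
        have h4m : (4 : ℝ) ^ m = 2 ^ m * 2 ^ m := by
          rw [← mul_pow]; norm_num
        have h2m : (2 : ℝ) ^ m ≠ 0 := by positivity
        rw [mul_pow, div_pow, pow_succ, pow_succ, pow_succ, h4m]
        field_simp
        norm_num
      calc r ^ η₁ * (2 * (Ct * r) * ‖deriv f^[N] (f c)‖)
          = (2 * Ct * r ^ η₁) * (r * ‖deriv f^[N] (f c)‖) := by ring
        _ ≤ (‖L‖ * lam * (2 / 4 ^ q)) * (r * ‖deriv f^[N] (f c)‖) :=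
            mul_le_mul_of_nonneg_right g9 (by positivity)
        _ = ‖deriv f^[N] (f c)‖ * ‖L‖ * 1 * ((2 / 4 ^ q * r) * lam) := by ring
        _ = ‖deriv f^[N] (f c)‖ * ‖L‖ * 1 * (σ₀ / 2) ^ (q - 1) * (lam * σ₀) := by
            rw [e3]; ring
        _ ≤ ‖deriv f^[N] (f c)‖ * ‖L‖ * q * ‖b‖ ^ (q - 1) * (lam * σ₀) := by gcongr
    have hl := hland r hr g2 (f^[N] (f c)) (hO.mem N) b (lam * σ₀)
      (fun a => (F a)^[N] (F a (ζ a))) (deriv f^[N] (f c) * L * q * b ^ (q - 1))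
      (2 * (Ct * r) * ‖deriv f^[N] (f c)‖) (θ * s / ((N : ℝ) + 1) ^ 2) (by positivity)
      (fun a ha => hq a (hsubb a ha)) hNAW
      (fun a ha => (hev a (hsubb a ha)).2.1 N le_rfl) hϑ1 hϑ2 hϑ3 hTD hTl
    refine (measure_mono ?_).trans (hl.trans (ENNReal.ofReal_le_ofReal ?_))
    · rintro a ⟨hna, ha⟩
      refine ⟨ha, fun hA => hna ?_⟩
      have haσ : a ∈ ball (0 : ℂ) (2 * σ₀) :=
        hsubb a (ball_subset_ball (by nlinarith) ha)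
      exact hF.step a _ (hρ a haσ) (hM.near a (hρ a haσ)) ((hev a haσ).2.2.2.2 hA)
    · exact le_of_eq (by ring)

end Pool.Agent.H963.AD211
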