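import Pool.Agent.H963.AD211.Com

/-!
# Task AD211 STEP (project AD of helper211): from one level to the next one
-/

set_option autoImplicit false

open Metric Set MeasureTheory Filter Topology

namespace Pool.Agent.H963.AD211

open Pool.Agent.H211.AD

/-- The perturbed curve is nearly affine. -/
lemma na_step (hFOL : S_FOL) {f : ℂ → ℂ} {U K : Set ℂ} (hU : IsOpen U)
    (hf : DifferentiableOn ℂ f U) {δ₀ : ℝ} (hthick : cthickening δ₀ K ⊆ U)
    {F : ℂ → ℂ → ℂ} {A : ℂ → ℂ → Prop} {q : ℕ}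
    {ρ₁ δ₁ C₁ : ℝ} (hF : Fam F A f K q ρ₁ δ₁ C₁) {Cr : Finset ℂ} {ℓ : ℂ → ℕ}
    {c₀ μ s C₂ S₀ : ℝ} {v : ℂ} (hO : OD f K Cr ℓ δ₀ δ₁ c₀ μ s C₂ S₀ v) (hS₀ : 0 < S₀)
    (hC₂ : 1 ≤ C₂)
    {θ : ℝ} (hθ : 0 < θ) (h24 : 24 * C₂ * θ ≤ 1 / 10) (h4 : 4 * θ ≤ 1) {N : ℕ} {t r : ℝ}
    (ht : 0 < t) (hr : 0 < r)
    (hN : ∀ i < N, t * ‖deriv f^[i] v‖ ≤ θ / ((i : ℝ) + 1) ^ 2 * (s * dC Cr (f^[i] v)))
    {a₀ D : ℂ} {σ : ℝ} {u : ℂ → ℂ} (hσ : 0 < σ) (hρ : ∀ a ∈ ball a₀ σ, ‖a‖ < ρ₁)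
    (hq : ∀ a ∈ ball a₀ σ, ‖a‖ ^ q ≤ r) (hNA : NA u a₀ σ D (1 / 2))
    (hu : ∀ a ∈ ball a₀ σ, ‖u a - v‖ ≤ t / 2) (hrt : S₀ * (C₁ * r) ≤ t / 2)
    (hD : 240 * (S₀ * (C₁ * r)) ≤ ‖D‖ * σ) {b : ℂ} (hb : b ∈ ball a₀ (σ / 2)) :
    NA (fun a => (F a)^[N] (u a)) b (σ / 4) (deriv f^[N] v * D) (3 / 4) := by
  have h16 : 16 * C₂ * θ ≤ 1 := by
    have : 0 < C₂ * θ := by positivity
    linarith
  have hP : 0 < ‖deriv f^[N] v‖ := by
    have h := hO.orb.Dne
    have : ∀ n, deriv f^[n] v ≠ 0 := by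
      intro n
      induction n with
      | zero => simp
      | succ n ih => rw [show deriv f^[n + 1] v = _ from hO.orb.Ps n]; exact mul_ne_zero (h n) ih
    exact norm_pos_iff.2 (this N)
  have hev : ∀ a ∈ ball a₀ σ, _ := fun a ha =>
    evolve hFOL hF hO hθ h16 h4 (N := N) (t := t) (r := r) ht hr.le hN (a := a)
      (w := u a) (hρ a ha) (hq a ha) (by have := hu a ha; linarith)
  have hW : DifferentiableOn ℂ (fun a => (F a)^[N] (u a)) (ball a₀ σ) :=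
    curve_diff hF isOpen_ball hρ hNA.1 N fun a ha i hi => ((hev a ha).1 i hi).1
  have hG : ∀ a ∈ ball a₀ σ, _ := fun a ha =>
    iter_deriv hFOL hU hf hthick hF hO hθ h16 h4 (N := N) (t := t) ht hN (w := u a) (hu a ha)
  have hGu : DifferentiableOn ℂ (fun a => f^[N] (u a)) (ball a₀ σ) := fun a ha =>
    (DifferentiableAt.comp a (hG a ha).1
      (hNA.1.differentiableAt (isOpen_ball.mem_nhds ha))).differentiableWithinAt
  have hsub : ∀ a ∈ ball b (σ / 4), closedBall a (σ / 8) ⊆ ball a₀ σ := by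
    intro a ha x hx
    rw [mem_ball] at ha hb ⊢
    rw [mem_closedBall] at hx
    calc dist x a₀ ≤ dist x a + dist a b + dist b a₀ := dist_triangle4 _ _ _ _
      _ < σ / 8 + σ / 4 + σ / 2 := by linarith
      _ ≤ σ := by linarith
  have hself : ∀ a ∈ ball b (σ / 4), a ∈ ball a₀ σ := fun a ha =>
    hsub a ha (mem_closedBall_self (by linarith))
  refine ⟨hW.mono fun a ha => hself a ha, mul_ne_zero (norm_pos_iff.1 hP) hNA.2.1, ?_⟩
  intro a ha
  have haσ := hself a ha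
  have hda : DifferentiableAt ℂ u a := hNA.1.differentiableAt (isOpen_ball.mem_nhds haσ)
  -- the derivative of the difference
  have h1 : ‖deriv (fun a => (F a)^[N] (u a) - f^[N] (u a)) a‖ ≤
      3 * S₀ * (C₁ * r) * ‖deriv f^[N] v‖ / (σ / 8) :=
    cauchy (B := ball a₀ σ) (hW.sub hGu) (by linarith) (hsub a ha)
      fun b' hb' => (hev b' hb').2.2.2.1
  have h2 : deriv (fun a => (F a)^[N] (u a)) a =
      deriv (fun a => (F a)^[N] (u a) - f^[N] (u a)) a +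
        deriv f^[N] (u a) * deriv u a := by
    have e1 : HasDerivAt (fun a => f^[N] (u a)) (deriv f^[N] (u a) * deriv u a) a :=
      HasDerivAt.comp a (hG a haσ).1.hasDerivAt hda.hasDerivAt
    have e2 : HasDerivAt (fun a => (F a)^[N] (u a)) (deriv (fun a => (F a)^[N] (u a)) a) a :=
      (hW.differentiableAt (isOpen_ball.mem_nhds haσ)).hasDerivAt
    have e3 : deriv (fun a => (F a)^[N] (u a) - f^[N] (u a)) a =
        deriv (fun a => (F a)^[N] (u a)) a - deriv f^[N] (u a) * deriv u a := (e2.sub e1).deriv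
    rw [e3]; ring
  have h3 : ‖deriv f^[N] (u a) * deriv u a - deriv f^[N] v * D‖ ≤
      (1 / 10 + 1 / 2) * (‖deriv f^[N] v‖ * ‖D‖) := by
    have e1 : deriv f^[N] (u a) * deriv u a - deriv f^[N] v * D =
        (deriv f^[N] (u a) - deriv f^[N] v) * deriv u a + deriv f^[N] v * (deriv u a - D) := by
      ring
    have e2 := (hG a haσ).2
    have e3 := hNA.2.2 a haσ
    have e4 : ‖deriv u a‖ ≤ 3 / 2 * ‖D‖ := by
      calc ‖deriv u a‖ = ‖(deriv u a - D) + D‖ := by ring_nf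
        _ ≤ ‖deriv u a - D‖ + ‖D‖ := norm_add_le _ _
        _ ≤ 3 / 2 * ‖D‖ := by linarith
    rw [e1]
    calc _ ≤ ‖deriv f^[N] (u a) - deriv f^[N] v‖ * ‖deriv u a‖ +
          ‖deriv f^[N] v‖ * ‖deriv u a - D‖ := by
          refine (norm_add_le _ _).trans ?_
          rw [norm_mul, norm_mul]
      _ ≤ (16 * C₂ * θ * ‖deriv f^[N] v‖) * (3 / 2 * ‖D‖) + ‖deriv f^[N] v‖ * (1 / 2 * ‖D‖) := by
          gcongr
      _ = (24 * C₂ * θ + 1 / 2) * (‖deriv f^[N] v‖ * ‖D‖) := by ring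
      _ ≤ _ := by gcongr
  have h4' : 3 * S₀ * (C₁ * r) * ‖deriv f^[N] v‖ / (σ / 8) ≤
      1 / 10 * (‖deriv f^[N] v‖ * ‖D‖) := by
    rw [div_le_iff₀ (by linarith)]
    have := mul_le_mul_of_nonneg_left hD hP.le
    nlinarith
  rw [h2, norm_mul]
  calc ‖deriv (fun a => (F a)^[N] (u a) - f^[N] (u a)) a +
        deriv f^[N] (u a) * deriv u a - deriv f^[N] v * D‖
      = ‖deriv (fun a => (F a)^[N] (u a) - f^[N] (u a)) a +
        (deriv f^[N] (u a) * deriv u a - deriv f^[N] v * D)‖ := by ring_nf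
    _ ≤ _ := norm_add_le _ _
    _ ≤ 1 / 10 * (‖deriv f^[N] v‖ * ‖D‖) + (1 / 10 + 1 / 2) * (‖deriv f^[N] v‖ * ‖D‖) :=
        add_le_add (h1.trans h4') h3
    _ ≤ 3 / 4 * (‖deriv f^[N] v‖ * ‖D‖) := by
        have : 0 ≤ ‖deriv f^[N] v‖ * ‖D‖ := by positivity
        linarith

theorem t_STEP (hNL : S_NL) (hFOL : S_FOL) (hTIME : S_TIME) (hCOV : S_COV) : S_STEP := by
  intro f U K Cr ℓ δ₀ Cp rp c₀ μ hS hne F A q ρ₁ δ₁ C₁ hF β₁ hβ₁ hbase
  obtain ⟨s, C₂, S₀, hs, hs1, hC₂, hS₀, hOD⟩ := od_exists hNL hS hne hF.δ₁_pos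
  have hLc : ∀ c ∈ Cr, ℓ c ≤ Cr.sup ℓ := fun c hc => Finset.le_sup hc
  have hC₂0 : 0 < C₂ := by linarith
  obtain ⟨θ, hθe⟩ : ∃ θ : ℝ, θ = 1 / (240 * C₂) := ⟨_, rfl⟩
  have hθ : 0 < θ := by rw [hθe]; positivity
  have hθC : C₂ * θ = 1 / 240 := by rw [hθe]; field_simp
  have hθ1 : θ ≤ 1 / 240 := by nlinarith
  obtain ⟨κ₂, hκ0, hκ1, C_N, hCN, t₁, ht₁, ht₁1, htime⟩ :=
    hTIME C₂ c₀ μ θ (Cr.sup ℓ) hC₂ hS.c₀_pos hS.μ_gt hθ (by linarith)
  refine ⟨κ₂, hκ0, hκ1, ?_⟩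
  intro β hβ0 hβ1 hland β' hβ'0 hβ'1 hββ'
  obtain ⟨η₁, hη₁, c₁, hc₁, CL, hCL, rL, hrL, hland⟩ := hland
  obtain ⟨cB, hcB, CB, hCB, rB, hrB, hbase⟩ := hbase
  obtain ⟨CC, hCC, hcov⟩ := hCOV
  obtain ⟨η, hηe⟩ : ∃ η : ℝ, η = min (η₁ / 2) (min (β₁ / 2) ((1 - β') / 2)) := ⟨_, rfl⟩
  have hη0 : 0 < η := by
    rw [hηe]; exact lt_min (by linarith) (lt_min (by linarith) (by linarith))
  have hηη₁ : η ≤ η₁ / 2 := by rw [hηe]; exact min_le_left _ _
  have hηβ₁ : η ≤ β₁ / 2 := by rw [hηe]; exact (min_le_right _ _).trans (min_le_left _ _)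
  have hηβ' : η ≤ (1 - β') / 2 := by rw [hηe]; exact (min_le_right _ _).trans (min_le_right _ _)
  have hsmall : ∀ᶠ r in 𝓝[>] (0 : ℝ), (r < 1 ∧ r < rL ∧ r < rB ∧ r < ρ₁ ^ q) ∧
      (S₀ * C₁) * r ^ (1 - β') ≤ 1 ∧ (240 * (S₀ * C₁)) * r ^ (1 - β' - η) ≤ 1 ∧
      1 * r ^ (β₁ - η) ≤ t₁ / 2 ∧ r ^ η₁ * (C_N * Real.log (1 / r) + 1) ^ 2 ≤ θ * s ∧
      16 * r ^ (η₁ - η) ≤ 1 := by
    have hρq : 0 < ρ₁ ^ q := pow_pos hF.ρ₁_pos q
    filter_upwards [Ioo_mem_nhdsGT (zero_lt_one (α := ℝ)), Ioo_mem_nhdsGT hrL,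
      Ioo_mem_nhdsGT hrB, Ioo_mem_nhdsGT hρq,
      ev_rpow (a := 1 - β') (by linarith) (S₀ * C₁) one_pos,
      ev_rpow (a := 1 - β' - η) (by linarith) (240 * (S₀ * C₁)) one_pos,
      ev_rpow (a := β₁ - η) (by linarith) 1 (ε := t₁ / 2) (by linarith),
      ev_log hη₁ C_N (ε := θ * s) (by positivity),
      ev_rpow (a := η₁ - η) (by linarith) 16 one_pos] with r h1 h2 h3 h4 h5 h6 h7 h8 h9
    exact ⟨⟨h1.2, h2.2, h3.2, h4.2⟩, h5, h6, h7, h8, h9⟩
  obtain ⟨r₀, hr₀, hr₀s⟩ := mem_nhdsGT_iff_exists_Ioo_subset.1 hsmall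
  refine ⟨η, hη0, min c₁ cB, lt_min hc₁ hcB, CB + CC * CL, by positivity, r₀, hr₀, ?_⟩
  intro r hr hrr₀ c' hc' a₀ σ u D t hσ hq hNA hβt hut hηt
  obtain ⟨⟨hr1, hrL', hrB', hrρ⟩, g1, g2, g3, g4, g5⟩ := hr₀s ⟨hr, hrr₀⟩
  have hO := hOD c' hc'
  have hρ : ∀ a ∈ ball a₀ σ, ‖a‖ < ρ₁ := by
    intro a ha
    by_contra hcon
    push Not at hcon
    have := pow_le_pow_left₀ hF.ρ₁_pos.le hcon q
    linarith [hq a ha]
  have hNA' : NA u a₀ σ D (3 / 4) := ⟨hNA.1, hNA.2.1, fun a ha =>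
    (hNA.2.2 a ha).trans (mul_le_mul_of_nonneg_right (by norm_num) (norm_nonneg _))⟩
  have htpos : 0 < t := lt_of_lt_of_le (Real.rpow_pos_of_pos hr _) hβt
  have hcpow1 : r ^ c₁ ≤ r ^ (min c₁ cB) :=
    Real.rpow_le_rpow_of_exponent_ge hr hr1.le (min_le_left _ _)
  have hcpow2 : r ^ cB ≤ r ^ (min c₁ cB) :=
    Real.rpow_le_rpow_of_exponent_ge hr hr1.le (min_le_right _ _)
  have hrη : 0 < r ^ η := Real.rpow_pos_of_pos hr _
  by_cases htt : t₁ < 2 * t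
  · -- direct application of `BaseC`
    have h1 : r ^ β₁ ≤ ‖D‖ * σ := by
      have e1 : r ^ β₁ = r ^ η * r ^ (β₁ - η) := by
        rw [← Real.rpow_add hr]; congr 1; ring
      calc r ^ β₁ = r ^ η * r ^ (β₁ - η) := e1
        _ ≤ r ^ η * t := mul_le_mul_of_nonneg_left (by linarith) hrη.le
        _ ≤ _ := hηt
    have h2 := hbase r hr hrB' a₀ σ u D hσ hq hNA' h1
    refine (measure_mono ?_).trans (h2.trans (ENNReal.ofReal_le_ofReal ?_))
    · rintro a ⟨ha, hna⟩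
      exact ⟨ball_subset_ball (by linarith) ha, hna⟩
    · have : 0 ≤ CC * CL * r ^ (min c₁ cB) := by positivity
      have hh : CB * r ^ cB ≤ CB * r ^ (min c₁ cB) := mul_le_mul_of_nonneg_left hcpow2 hCB.le
      have : CB * r ^ cB ≤ (CB + CC * CL) * r ^ (min c₁ cB) := by linarith
      exact mul_le_mul_of_nonneg_right this (by positivity)
  · push Not at htt
    obtain ⟨N, hN1, hN2, hN3, hN4⟩ := htime (fun n => ‖deriv f^[n] (f c')‖)
      (fun n => s * dC Cr (f^[n] (f c'))) (by simp) hO.ce hO.xpos hO.grow (2 * t)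
      (by linarith) htt
    have hSt : S₀ * (C₁ * r) ≤ t := by
      have e1 : r = r ^ β' * r ^ (1 - β') := by
        rw [← Real.rpow_add hr]
        conv_lhs => rw [← Real.rpow_one r]
        congr 1; ring
      have e2 : S₀ * (C₁ * r) = r ^ β' * (S₀ * C₁ * r ^ (1 - β')) := by
        conv_lhs => rw [e1]
        ring
      rw [e2]
      calc r ^ β' * (S₀ * C₁ * r ^ (1 - β')) ≤ r ^ β' * 1 :=
            mul_le_mul_of_nonneg_left g1 (Real.rpow_nonneg hr.le _)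
        _ ≤ t := by linarith
    have hSD : 240 * (S₀ * (C₁ * r)) ≤ ‖D‖ * σ := by
      have e1 : r = r ^ η * r ^ β' * r ^ (1 - β' - η) := by
        rw [← Real.rpow_add hr, ← Real.rpow_add hr]
        conv_lhs => rw [← Real.rpow_one r]
        congr 1; ring
      have e2 : 240 * (S₀ * (C₁ * r)) = (r ^ η * r ^ β') * (240 * (S₀ * C₁) * r ^ (1 - β' - η)) := by
        conv_lhs => rw [e1]
        ring
      rw [e2]
      calc (r ^ η * r ^ β') * (240 * (S₀ * C₁) * r ^ (1 - β' - η)) ≤ (r ^ η * r ^ β') * 1 :=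
            mul_le_mul_of_nonneg_left g2 (by positivity)
        _ ≤ r ^ η * t := by
            rw [mul_one]; exact mul_le_mul_of_nonneg_left hβt hrη.le
        _ ≤ _ := hηt
    have hev : ∀ a ∈ ball a₀ σ, _ := fun a ha =>
      evolve hFOL hF hO hθ (by nlinarith) (by linarith) (N := N) (t := 2 * t) (r := r)
        (by linarith) hr.le hN1 (a := a) (w := u a) (hρ a ha) (hq a ha)
        (by have := hut a ha; linarith)
    have hP : 0 < ‖deriv f^[N] (f c')‖ := lt_of_lt_of_le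
      (by have := hS.c₀_pos; have := hS.μ_gt; positivity) (hO.ce N)
    have hlog : (N : ℝ) + 1 ≤ C_N * Real.log (1 / r) + 1 := by
      have h1 : r ≤ 2 * t := by
        have : r ≤ r ^ β' := by
          conv_lhs => rw [← Real.rpow_one r]
          exact Real.rpow_le_rpow_of_exponent_ge hr hr1.le hβ'1.le
        linarith
      have h2 : Real.log (1 / (2 * t)) ≤ Real.log (1 / r) := by
        apply Real.log_le_log (by positivity)
        exact one_div_le_one_div_of_le hr h1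
      have h3 := mul_le_mul_of_nonneg_left h2 hCN.le
      linarith
    have hN0 : 0 < (N : ℝ) + 1 := by positivity
    have hϑ1 : r ^ η₁ ≤ θ * s / ((N : ℝ) + 1) ^ 2 := by
      rw [le_div_iff₀ (by positivity)]
      refine le_trans ?_ g4
      apply mul_le_mul_of_nonneg_left _ (Real.rpow_nonneg hr.le _)
      exact pow_le_pow_left₀ hN0.le hlog 2
    have hϑ2 : θ * s / ((N : ℝ) + 1) ^ 2 ≤ 1 := by
      rw [div_le_one (by positivity)]
      have : (1 : ℝ) ≤ ((N : ℝ) + 1) ^ 2 := one_le_pow₀ (by linarith [Nat.cast_nonneg (α := ℝ) N])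
      nlinarith
    have hϑ3 : θ * s / ((N : ℝ) + 1) ^ 2 * dC Cr (f^[N] (f c')) ≤
        2 * (2 * t) * ‖deriv f^[N] (f c')‖ := by
      have e : θ * s / ((N : ℝ) + 1) ^ 2 * dC Cr (f^[N] (f c')) =
          θ / ((N : ℝ) + 1) ^ 2 * (s * dC Cr (f^[N] (f c'))) := by ring
      rw [e]
      have : 0 < t * ‖deriv f^[N] (f c')‖ := by positivity
      linarith
    have hTD : r ^ η₁ * (2 * (2 * t) * ‖deriv f^[N] (f c')‖) ≤
        ‖deriv f^[N] (f c') * D‖ * (σ / 4) := by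
      have e1 : r ^ η₁ = r ^ η * r ^ (η₁ - η) := by
        rw [← Real.rpow_add hr]; congr 1; ring
      have e2 : 16 * r ^ η₁ * t ≤ ‖D‖ * σ := by
        calc 16 * r ^ η₁ * t = (r ^ η * t) * (16 * r ^ (η₁ - η)) := by rw [e1]; ring
          _ ≤ (r ^ η * t) * 1 := mul_le_mul_of_nonneg_left g5 (by positivity)
          _ ≤ _ := by rw [mul_one]; exact hηt
      rw [norm_mul]
      have := mul_le_mul_of_nonneg_right e2 hP.le
      linarith
    have hTl : ∀ c ∈ Cr, ‖f^[N] (f c') - c‖ ≤ dC Cr (f^[N] (f c')) →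
        r ^ β ≤ (2 * (2 * t) * ‖deriv f^[N] (f c')‖) ^ ℓ c := by
      intro c hc hcd
      have h1 := hN4 (ℓ c) (by have := hS.deg c hc; omega) (hLc c hc) (hO.crit N c hc hcd)
      have h2 : (2 * t * ‖deriv f^[N] (f c')‖) ^ ℓ c ≤
          (2 * (2 * t) * ‖deriv f^[N] (f c')‖) ^ ℓ c := by
        apply pow_le_pow_left₀ (by positivity)
        have : 0 < t * ‖deriv f^[N] (f c')‖ := by positivity
        linarith
      have h3 : r ^ β ≤ (2 * t) ^ (1 - κ₂) := by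
        calc r ^ β ≤ r ^ (β' * (1 - κ₂)) := Real.rpow_le_rpow_of_exponent_ge hr hr1.le hββ'
          _ = (r ^ β') ^ (1 - κ₂) := Real.rpow_mul hr.le _ _
          _ ≤ (2 * t) ^ (1 - κ₂) :=
            Real.rpow_le_rpow (Real.rpow_nonneg hr.le _) (by linarith) (by linarith)
      exact h3.trans (h1.trans h2)
    -- the covering
    have hcovr := hcov a₀ (σ / 2) (σ / 8) (4 * (CL * r ^ c₁)) (ball a₀ (σ / 2))
      {a | ¬ A a (u a)} (by linarith) (by linarith) (by positivity) subset_rfl ?_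
    · refine (measure_mono ?_).trans (hcovr.trans (ENNReal.ofReal_le_ofReal ?_))
      · rintro a ⟨ha, hna⟩
        exact ⟨hna, ha⟩
      · have e : CC * (4 * (CL * r ^ c₁)) * (σ / 2) ^ 2 = CC * CL * r ^ c₁ * σ ^ 2 := by ring
        rw [e]
        have h0 : 0 ≤ CB * r ^ (min c₁ cB) := by positivity
        have hh : CC * CL * r ^ c₁ ≤ CC * CL * r ^ (min c₁ cB) :=
          mul_le_mul_of_nonneg_left hcpow1 (by positivity)
        have : CC * CL * r ^ c₁ ≤ (CB + CC * CL) * r ^ (min c₁ cB) := by linarith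
        exact mul_le_mul_of_nonneg_right this (by positivity)
    · intro b hb
      have hsubb : ∀ a ∈ ball b (σ / 4), a ∈ ball a₀ σ := by
        intro a ha
        rw [mem_ball] at ha hb ⊢
        calc dist a a₀ ≤ dist a b + dist b a₀ := dist_triangle _ _ _
          _ < σ / 4 + σ / 2 := by linarith
          _ ≤ σ := by linarith
      have hNAW := na_step hFOL hS.openU hS.diff hS.thick hF hO hS₀ hC₂ hθ (by nlinarith)
        (by linarith) (N := N) (t := 2 * t) (r := r) (by linarith) hr hN1 hσ hρ hq hNA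
        (fun a ha => by have := hut a ha; linarith) (by linarith) hSD hb
      have hl := hland r hr hrL' (f^[N] (f c')) (hO.mem N) b (σ / 4)
        (fun a => (F a)^[N] (u a)) (deriv f^[N] (f c') * D)
        (2 * (2 * t) * ‖deriv f^[N] (f c')‖) (θ * s / ((N : ℝ) + 1) ^ 2) (by linarith)
        (fun a ha => hq a (hsubb a ha)) hNAW
        (fun a ha => (hev a (hsubb a ha)).2.1 N le_rfl) hϑ1 hϑ2 hϑ3 hTD hTl
      refine (measure_mono ?_).trans (hl.trans (ENNReal.ofReal_le_ofReal ?_))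
      · rintro a ⟨hna, ha⟩
        refine ⟨?_, fun hA => hna ?_⟩
        · have : σ / 4 / 2 = σ / 8 := by ring
          rw [this]; exact ha
        · exact (hev a (hsubb a (ball_subset_ball (by linarith) ha))).2.2.2.2 hA
      · exact le_of_eq (by ring)

end Pool.Agent.H963.AD211
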