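import Pool.Agent.H211.AD.Stm2

/-!
# Common lemmas for `S_STEP` and `S_FIRST` (project AD of helper211)
-/

set_option autoImplicit false

open Metric Set MeasureTheory Filter Topology

namespace Pool.Agent.H963.AD211

open Pool.Agent.H211.AD

lemma deriv_iter {f : ℂ → ℂ} {U : Set ℂ} (hU : IsOpen U) (hf : DifferentiableOn ℂ f U) (v : ℂ)
    (h : ∀ n, f^[n] v ∈ U) :
    ∀ n, DifferentiableAt ℂ f^[n] v ∧
      deriv f^[n + 1] v = deriv f (f^[n] v) * deriv f^[n] v := by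
  have hd : ∀ n, DifferentiableAt ℂ f^[n] v := by
    intro n
    induction n with
    | zero => simp
    | succ n ih =>
      rw [Function.iterate_succ']
      exact DifferentiableAt.comp v (hf.differentiableAt (hU.mem_nhds (h n))) ih
  intro n
  refine ⟨hd n, ?_⟩
  rw [Function.iterate_succ']
  rw [deriv_comp v (hf.differentiableAt (hU.mem_nhds (h n))) (hd n)]

/-- The data along the orbit of `v`. -/
structure OD (f : ℂ → ℂ) (K : Set ℂ) (Cr : Finset ℂ) (ℓ : ℂ → ℕ) (δ₀ δ₁ c₀ μ s C₂ S₀ : ℝ)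
    (v : ℂ) : Prop where
  orb : Orb f (fun i => f^[i] v) (fun i => deriv f^[i] v) (fun i => deriv f (f^[i] v))
    (fun i => s * dC Cr (f^[i] v)) C₂ S₀
  mem : ∀ i, f^[i] v ∈ K
  ce : ∀ n, c₀ * μ ^ n ≤ ‖deriv f^[n] v‖
  xpos : ∀ n, 0 < s * dC Cr (f^[n] v) ∧ s * dC Cr (f^[n] v) ≤ 1
  grow : ∀ n, ‖deriv f^[n + 1] v‖ ≤ C₂ * (s * dC Cr (f^[n] v)) * ‖deriv f^[n] v‖
  sub0 : ∀ n, closedBall (f^[n] v) (s * dC Cr (f^[n] v)) ⊆ cthickening δ₀ K
  sub1 : ∀ n, closedBall (f^[n] v) (s * dC Cr (f^[n] v)) ⊆ cthickening δ₁ K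
  crit : ∀ n, ∀ c ∈ Cr, ‖f^[n] v - c‖ ≤ dC Cr (f^[n] v) →
    c₀ * μ ^ n ≤ C₂ * ‖deriv f^[n] v‖ * (s * dC Cr (f^[n] v)) ^ (ℓ c - 1)

lemma sum_inv_le {c₀ μ : ℝ} (hc : 0 < c₀) (hμ : 1 < μ) (p : ℕ → ℝ)
    (hp : ∀ n, c₀ * μ ^ n ≤ p n) (n : ℕ) :
    ∑ i ∈ Finset.range n, (p (i + 1))⁻¹ ≤ 1 / (c₀ * (μ - 1)) := by
  have hμ0 : 0 < μ := by linarith
  have h1 : ∀ i, (p (i + 1))⁻¹ ≤ (c₀ * μ)⁻¹ * (μ⁻¹) ^ i := by
    intro i
    have : 0 < c₀ * μ ^ (i + 1) := by positivity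
    calc (p (i + 1))⁻¹ ≤ (c₀ * μ ^ (i + 1))⁻¹ := inv_anti₀ this (hp (i + 1))
      _ = (c₀ * μ)⁻¹ * (μ⁻¹) ^ i := by
        rw [pow_succ, inv_pow, mul_inv, mul_inv, mul_inv]; ring
  have hr : μ⁻¹ < 1 := inv_lt_one_of_one_lt₀ hμ
  have h2 : ∑ i ∈ Finset.range n, (μ⁻¹) ^ i ≤ (1 - μ⁻¹)⁻¹ := by
    have := (summable_geometric_of_lt_one (by positivity) hr).sum_le_tsum (Finset.range n)
      (fun i _ => by positivity)
    rwa [tsum_geometric_of_lt_one (by positivity) hr] at this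
  calc ∑ i ∈ Finset.range n, (p (i + 1))⁻¹
      ≤ ∑ i ∈ Finset.range n, (c₀ * μ)⁻¹ * (μ⁻¹) ^ i := Finset.sum_le_sum fun i _ => h1 i
    _ = (c₀ * μ)⁻¹ * ∑ i ∈ Finset.range n, (μ⁻¹) ^ i := by rw [Finset.mul_sum]
    _ ≤ (c₀ * μ)⁻¹ * (1 - μ⁻¹)⁻¹ := by
      apply mul_le_mul_of_nonneg_left h2; positivity
    _ = 1 / (c₀ * (μ - 1)) := by
      have : μ - 1 ≠ 0 := by linarith
      field_simp

lemma od_exists (hNL : S_NL) {f : ℂ → ℂ} {U K : Set ℂ} {Cr : Finset ℂ} {ℓ : ℂ → ℕ}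
    {δ₀ Cp rp c₀ μ : ℝ} (hS : Sys f U K Cr ℓ δ₀ Cp rp c₀ μ) (hne : Cr.Nonempty) {δ₁ : ℝ}
    (hδ₁ : 0 < δ₁) :
    ∃ s C₂ S₀ : ℝ, 0 < s ∧ s ≤ 1 ∧ 1 ≤ C₂ ∧ 0 < S₀ ∧
      ∀ c ∈ Cr, OD f K Cr ℓ δ₀ δ₁ c₀ μ s C₂ S₀ (f c) := by
  obtain ⟨s, hs, C₂, hC₂, hnl⟩ := hNL f U K Cr ℓ δ₀ Cp rp c₀ μ hS hne
  set L : ℕ := Cr.sup ℓ + 1 with hL
  have hLc : ∀ c ∈ Cr, ℓ c ≤ L := fun c hc => (Finset.le_sup hc).trans (Nat.le_succ _)
  set s' : ℝ := min s (min δ₁ 1) with hs'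
  have hs'0 : 0 < s' := lt_min hs (lt_min hδ₁ one_pos)
  have hs's : s' ≤ s := min_le_left _ _
  have hs'δ : s' ≤ δ₁ := (min_le_right _ _).trans (min_le_left _ _)
  have hs'1 : s' ≤ 1 := (min_le_right _ _).trans (min_le_right _ _)
  have hpw : ∀ k ≤ L, s' ^ L ≤ s' ^ k := fun k hk => pow_le_pow_of_le_one hs'0.le hs'1 hk
  have hsL : 0 < s' ^ L := by positivity
  set C₂' : ℝ := C₂ / s' ^ L with hC₂'
  have hC0 : 0 < C₂ := by linarith
  have hCC : C₂ ≤ C₂' := by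
    rw [hC₂', le_div_iff₀ hsL]
    have := hpw 0 (Nat.zero_le _)
    rw [pow_zero] at this
    nlinarith
  refine ⟨s', C₂', 1 / (c₀ * (μ - 1)), hs'0, hs'1, hC₂.trans hCC, ?_, ?_⟩
  · have := hS.c₀_pos
    have := hS.μ_gt
    have : 0 < μ - 1 := by linarith
    positivity
  intro c hc
  have hK : ∀ n, f^[n] (f c) ∈ K := by
    intro n
    induction n with
    | zero => exact hS.fwd _ (hS.critK c hc)
    | succ n ih => rw [Function.iterate_succ_apply']; exact hS.fwd _ ih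
  have hU : ∀ n, f^[n] (f c) ∈ U := fun n =>
    hS.thick (self_subset_cthickening K (hK n))
  have hdi := deriv_iter hS.openU hS.diff (f c) hU
  have hce := hS.ce c hc
  have hμ0 : 0 < μ := by linarith [hS.μ_gt]
  have hPpos : ∀ n, 0 < ‖deriv f^[n] (f c)‖ := fun n =>
    lt_of_lt_of_le (by have := hS.c₀_pos; positivity) (hce n)
  have hnotin : ∀ n, f^[n] (f c) ∉ Cr := by
    intro n hn
    have h1 := hS.loc _ hn (f^[n] (f c)) (by simpa using hS.rp_pos.le)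
    have h2 : deriv f (f^[n] (f c)) = 0 := by
      have h3 := h1.2.2.2.1
      rw [sub_self, norm_zero, zero_pow (by have := hS.deg _ hn; omega), mul_zero] at h3
      exact norm_le_zero_iff.1 h3
    have h4 := hPpos (n + 1)
    rw [(hdi n).2, h2, zero_mul, norm_zero] at h4
    exact lt_irrefl _ h4
  have hdC : ∀ n, 0 < dC Cr (f^[n] (f c)) := by
    intro n
    refine lt_min one_pos ?_
    have hcl : IsClosed (Cr : Set ℂ) := Cr.finite_toSet.isClosed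
    exact (hcl.notMem_iff_infDist_pos (by simpa using hne)).1 (by simpa using hnotin n)
  have hdC1 : ∀ n, dC Cr (f^[n] (f c)) ≤ 1 := fun n => min_le_left _ _
  have hx : ∀ n, 0 < s' * dC Cr (f^[n] (f c)) ∧ s' * dC Cr (f^[n] (f c)) ≤ 1 := fun n =>
    ⟨mul_pos hs'0 (hdC n), by nlinarith [hdC n, hdC1 n]⟩
  have hsubs : ∀ n, closedBall (f^[n] (f c)) (s' * dC Cr (f^[n] (f c))) ⊆
      closedBall (f^[n] (f c)) (s * dC Cr (f^[n] (f c))) := fun n =>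
    closedBall_subset_closedBall (by nlinarith [hdC n])
  have hsub0 : ∀ n, closedBall (f^[n] (f c)) (s' * dC Cr (f^[n] (f c))) ⊆ cthickening δ₀ K :=
    fun n => (hsubs n).trans (hnl _ (hK n) (hnotin n)).1
  have hdist : ∀ n, ∀ c' ∈ Cr, ‖f^[n] (f c) - c'‖ ≤ dC Cr (f^[n] (f c)) →
      c₀ * μ ^ n ≤ C₂' * ‖deriv f^[n] (f c)‖ * (s' * dC Cr (f^[n] (f c))) ^ (ℓ c' - 1) := by
    intro n c' hc' hle
    have h1 : c₀ * μ ^ n ≤ c₀ * μ ^ (n + 1) := by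
      apply mul_le_mul_of_nonneg_left _ hS.c₀_pos.le
      exact pow_le_pow_right₀ hS.μ_gt.le (Nat.le_succ n)
    have h2 := hce (n + 1)
    rw [(hdi n).2, norm_mul] at h2
    have h3 := (hnl _ (hK n) (hnotin n)).2.2.2.2 c' hc'
    have h4 : ‖f^[n] (f c) - c'‖ ^ (ℓ c' - 1) ≤ dC Cr (f^[n] (f c)) ^ (ℓ c' - 1) :=
      pow_le_pow_left₀ (norm_nonneg _) hle _
    have h5 : C₂ * dC Cr (f^[n] (f c)) ^ (ℓ c' - 1) ≤
        C₂' * (s' * dC Cr (f^[n] (f c))) ^ (ℓ c' - 1) := by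
      rw [hC₂', mul_pow, div_mul_eq_mul_div, le_div_iff₀ hsL]
      have h6 := hpw (ℓ c' - 1) ((Nat.sub_le _ _).trans (hLc c' hc'))
      have h7 : 0 ≤ dC Cr (f^[n] (f c)) ^ (ℓ c' - 1) := pow_nonneg (hdC n).le _
      have h8 := mul_le_mul_of_nonneg_left h6 (mul_nonneg hC0.le h7)
      linarith
    calc c₀ * μ ^ n ≤ ‖deriv f (f^[n] (f c))‖ * ‖deriv f^[n] (f c)‖ := h1.trans h2
      _ ≤ (C₂ * dC Cr (f^[n] (f c)) ^ (ℓ c' - 1)) * ‖deriv f^[n] (f c)‖ := by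
        apply mul_le_mul_of_nonneg_right _ (norm_nonneg _)
        exact h3.trans (mul_le_mul_of_nonneg_left h4 hC0.le)
      _ ≤ (C₂' * (s' * dC Cr (f^[n] (f c))) ^ (ℓ c' - 1)) * ‖deriv f^[n] (f c)‖ :=
        mul_le_mul_of_nonneg_right h5 (norm_nonneg _)
      _ = _ := by ring
  refine ⟨?_, hK, hce, hx, ?_, hsub0, ?_, hdist⟩
  · refine ⟨fun n => by simp only [Function.iterate_succ_apply'], by simp, fun n => (hdi n).2,
      fun n => (hnl _ (hK n) (hnotin n)).2.1, fun n => (hx n).1, ?_, by linarith, ?_⟩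
    · intro n y y' m hy hy' hm
      have hm0 : 0 ≤ m := (norm_nonneg _).trans hy
      have hball : closedBall (f^[n] (f c)) m ⊆
          closedBall (f^[n] (f c)) (s' * dC Cr (f^[n] (f c))) := closedBall_subset_closedBall hm
      have hdiff : ∀ w ∈ closedBall (f^[n] (f c)) m, DifferentiableAt ℂ f w := fun w hw =>
        hS.diff.differentiableAt (hS.openU.mem_nhds (hS.thick (hsub0 n (hball hw))))
      have hbd : ∀ w ∈ closedBall (f^[n] (f c)) m,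
          ‖deriv (fun w => f w - deriv f (f^[n] (f c)) * w) w‖ ≤
            C₂' * ‖deriv f (f^[n] (f c))‖ * (m / (s' * dC Cr (f^[n] (f c)))) := by
        intro w hw
        have e1 : deriv (fun w => f w - deriv f (f^[n] (f c)) * w) w =
            deriv f w - deriv f (f^[n] (f c)) := by
          have h1 : HasDerivAt (fun w => f w - deriv f (f^[n] (f c)) * w)
              (deriv f w - deriv f (f^[n] (f c)) * 1) w :=
            (hdiff w hw).hasDerivAt.sub ((hasDerivAt_id w).const_mul _)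
          rw [mul_one] at h1
          exact h1.deriv
        rw [e1]
        have h1 := (hnl _ (hK n) (hnotin n)).2.2.1 w (hsubs n (hball hw))
        refine h1.trans ?_
        have hw' : ‖w - f^[n] (f c)‖ ≤ m := by simpa [dist_eq_norm] using hw
        have h2 : ‖w - f^[n] (f c)‖ / dC Cr (f^[n] (f c)) ≤
            m / (s' * dC Cr (f^[n] (f c))) := by
          have h3 : s' * dC Cr (f^[n] (f c)) ≤ dC Cr (f^[n] (f c)) := by nlinarith [hdC n]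
          calc ‖w - f^[n] (f c)‖ / dC Cr (f^[n] (f c)) ≤ m / dC Cr (f^[n] (f c)) :=
                div_le_div_of_nonneg_right hw' (hdC n).le
            _ ≤ m / (s' * dC Cr (f^[n] (f c))) :=
                div_le_div_of_nonneg_left hm0 (hx n).1 h3
        have h4 : 0 ≤ m / (s' * dC Cr (f^[n] (f c))) := div_nonneg hm0 (hx n).1.le
        have h5 : 0 ≤ ‖w - f^[n] (f c)‖ / dC Cr (f^[n] (f c)) :=
          div_nonneg (norm_nonneg _) (hdC n).le
        gcongr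
      have hconv : Convex ℝ (closedBall (f^[n] (f c)) m) := convex_closedBall _ _
      have := hconv.norm_image_sub_le_of_norm_deriv_le (𝕜 := ℂ)
        (f := fun w => f w - deriv f (f^[n] (f c)) * w)
        (fun w hw => ((hdiff w hw).sub ((differentiableAt_id).const_mul _))) hbd
        (x := y') (y := y) (by simpa [dist_eq_norm] using hy') (by simpa [dist_eq_norm] using hy)
      have e : f y - f y' - deriv f (f^[n] (f c)) * (y - y') =
          (f y - deriv f (f^[n] (f c)) * y) - (f y' - deriv f (f^[n] (f c)) * y') := by ring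
      rw [e]
      exact this
    · intro n
      have := sum_inv_le hS.c₀_pos hS.μ_gt (fun n => ‖deriv f^[n] (f c)‖) hce n
      exact this
  · intro n
    rw [(hdi n).2, norm_mul]
    have h1 := (hnl _ (hK n) (hnotin n)).2.2.2.1
    have h2 : C₂ * dC Cr (f^[n] (f c)) ≤ C₂' * (s' * dC Cr (f^[n] (f c))) := by
      rw [hC₂', div_mul_eq_mul_div, le_div_iff₀ hsL]
      have h6 := hpw 1 (by omega)
      rw [pow_one] at h6
      have h8 := mul_le_mul_of_nonneg_left h6 (mul_nonneg hC0.le (hdC n).le)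
      linarith
    exact mul_le_mul_of_nonneg_right (h1.trans h2) (norm_nonneg _)
  · intro n
    have : closedBall (f^[n] (f c)) (s' * dC Cr (f^[n] (f c))) ⊆ closedBall (f^[n] (f c)) δ₁ :=
      closedBall_subset_closedBall (by nlinarith [hdC n, hdC1 n])
    exact this.trans (closedBall_subset_cthickening (hK n) δ₁)

lemma evolve (hFOL : S_FOL) {F : ℂ → ℂ → ℂ} {A : ℂ → ℂ → Prop} {f : ℂ → ℂ} {K : Set ℂ} {q : ℕ}
    {ρ₁ δ₁ C₁ : ℝ} (hF : Fam F A f K q ρ₁ δ₁ C₁) {Cr : Finset ℂ} {ℓ : ℂ → ℕ}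
    {δ₀ c₀ μ s C₂ S₀ : ℝ} {v : ℂ} (hO : OD f K Cr ℓ δ₀ δ₁ c₀ μ s C₂ S₀ v)
    {θ : ℝ} (hθ : 0 < θ) (h16 : 16 * C₂ * θ ≤ 1) (h4 : 4 * θ ≤ 1) {N : ℕ} {t r : ℝ} (ht : 0 < t)
    (hr : 0 ≤ r)
    (hN : ∀ i < N, t * ‖deriv f^[i] v‖ ≤ θ / ((i : ℝ) + 1) ^ 2 * (s * dC Cr (f^[i] v)))
    {a w : ℂ} (ha : ‖a‖ < ρ₁) (har : ‖a‖ ^ q ≤ r) (hw : ‖w - v‖ + S₀ * (C₁ * r) ≤ t) :
    (∀ i < N, (F a)^[i] w ∈ cthickening δ₁ K ∧
      (F a)^[i] w ∈ cthickening δ₀ K ∧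
      ‖(F a)^[i] w - f^[i] v‖ ≤ s * dC Cr (f^[i] v)) ∧
    (∀ i ≤ N, ‖(F a)^[i] w - f^[i] v‖ ≤ 2 * t * ‖deriv f^[i] v‖) ∧
    ‖(F a)^[N] w - f^[N] v - deriv f^[N] v * ((w - v) +
      ∑ i ∈ Finset.range N, (F a ((F a)^[i] w) - f ((F a)^[i] w)) / deriv f^[i + 1] v)‖ ≤
        8 * C₂ * θ * t * ‖deriv f^[N] v‖ ∧
    ‖(F a)^[N] w - f^[N] w‖ ≤ 3 * S₀ * (C₁ * r) * ‖deriv f^[N] v‖ ∧
    (A a ((F a)^[N] w) → A a w) := by
  have he : 0 ≤ C₁ * r := mul_nonneg hF.C₁_pos.le hr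
  have hstep : ∀ i < N, ‖(F a)^[i] w - f^[i] v‖ ≤ s * dC Cr (f^[i] v) →
      ‖(F a)^[i + 1] w - f ((F a)^[i] w)‖ ≤ C₁ * r := by
    intro i _ hi
    rw [Function.iterate_succ_apply']
    have hmem : (F a)^[i] w ∈ cthickening δ₁ K :=
      hO.sub1 i (by simpa [dist_eq_norm] using hi)
    exact (hF.close a _ ha hmem).trans (mul_le_mul_of_nonneg_left har hF.C₁_pos.le)
  obtain ⟨h1, h2, h3⟩ := hFOL f (fun i => f^[i] v) (fun i => deriv f^[i] v)
    (fun i => deriv f (f^[i] v)) (fun i => s * dC Cr (f^[i] v)) C₂ S₀ hO.orb θ hθ h16 h4 N t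
    (C₁ * r) (fun i => (F a)^[i] w) ht he hstep (by simpa using hw) hN
  have hmem : ∀ i < N, (F a)^[i] w ∈ cthickening δ₁ K ∧ (F a)^[i] w ∈ cthickening δ₀ K ∧
      ‖(F a)^[i] w - f^[i] v‖ ≤ s * dC Cr (f^[i] v) := fun i hi =>
    ⟨hO.sub1 i (by simpa [dist_eq_norm] using h1 i hi),
      hO.sub0 i (by simpa [dist_eq_norm] using h1 i hi), h1 i hi⟩
  refine ⟨hmem, fun i hi => (h2 i hi).1, ?_, ?_, ?_⟩
  · have := (h2 N le_rfl).2
    simpa only [Function.iterate_succ_apply', Function.iterate_zero, id] using this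
  · exact h3 (fun i => f^[i] w) (by simp) (fun i _ => by simp only [Function.iterate_succ_apply'])
      N le_rfl
  · have : ∀ n ≤ N, A a ((F a)^[n] w) → A a w := by
      intro n
      induction n with
      | zero => intro _ h; simpa using h
      | succ n ih =>
        intro hn h
        rw [Function.iterate_succ_apply'] at h
        exact ih (by omega) (hF.step a _ ha (hmem n (by omega)).1 h)
    exact this N le_rfl

lemma curve_diff {F : ℂ → ℂ → ℂ} {A : ℂ → ℂ → Prop} {f : ℂ → ℂ} {K : Set ℂ} {q : ℕ}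
    {ρ₁ δ₁ C₁ : ℝ} (hF : Fam F A f K q ρ₁ δ₁ C₁) {u : ℂ → ℂ} {B : Set ℂ} (hB : IsOpen B)
    (hBρ : ∀ a ∈ B, ‖a‖ < ρ₁) (hu : DifferentiableOn ℂ u B) :
    ∀ N : ℕ, (∀ a ∈ B, ∀ i < N, (F a)^[i] (u a) ∈ cthickening δ₁ K) →
      DifferentiableOn ℂ (fun a => (F a)^[N] (u a)) B := by
  intro N
  induction N with
  | zero => intro _; simpa using hu
  | succ n ih =>
    intro h a ha
    have h1 : DifferentiableAt ℂ (fun a => (F a)^[n] (u a)) a :=
      (ih fun a ha i hi => h a ha i (by omega)).differentiableAt (hB.mem_nhds ha)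
    have h2 : DifferentiableAt ℂ (fun p : ℂ × ℂ => F p.1 p.2) (a, (F a)^[n] (u a)) :=
      (hF.smooth a _ (hBρ a ha) (h a ha n (by omega))).differentiableAt (by norm_num)
    have h3 : DifferentiableAt ℂ (fun a => (a, (F a)^[n] (u a))) a :=
      differentiableAt_id.prodMk h1
    have h4 : (fun a => (F a)^[n + 1] (u a)) =
        (fun p : ℂ × ℂ => F p.1 p.2) ∘ (fun a => (a, (F a)^[n] (u a))) := by
      funext a
      simp only [Function.iterate_succ_apply', Function.comp]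
    rw [h4]
    exact (DifferentiableAt.comp a h2 h3).differentiableWithinAt

/-- Differentiability of the iterates of `f` at points whose orbit stays in `U`. -/
lemma iter_diff {f : ℂ → ℂ} {U : Set ℂ} (hU : IsOpen U) (hf : DifferentiableOn ℂ f U) (w : ℂ) :
    ∀ N : ℕ, (∀ i < N, f^[i] w ∈ U) → DifferentiableAt ℂ f^[N] w := by
  intro N
  induction N with
  | zero => intro _; simp
  | succ n ih =>
    intro h
    rw [Function.iterate_succ']
    exact DifferentiableAt.comp w (hf.differentiableAt (hU.mem_nhds (h n (by omega))))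
      (ih fun i hi => h i (by omega))

/-- The derivative of `f^[N]` is nearly constant close to the critical value. -/
lemma iter_deriv (hFOL : S_FOL) {f : ℂ → ℂ} {U K : Set ℂ} (hU : IsOpen U)
    (hf : DifferentiableOn ℂ f U) {δ₀ : ℝ} (hthick : cthickening δ₀ K ⊆ U)
    {F : ℂ → ℂ → ℂ} {A : ℂ → ℂ → Prop} {q : ℕ}
    {ρ₁ δ₁ C₁ : ℝ} (hF : Fam F A f K q ρ₁ δ₁ C₁) {Cr : Finset ℂ} {ℓ : ℂ → ℕ}
    {c₀ μ s C₂ S₀ : ℝ} {v : ℂ} (hO : OD f K Cr ℓ δ₀ δ₁ c₀ μ s C₂ S₀ v)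
    {θ : ℝ} (hθ : 0 < θ) (h16 : 16 * C₂ * θ ≤ 1) (h4 : 4 * θ ≤ 1) {N : ℕ} {t : ℝ} (ht : 0 < t)
    (hN : ∀ i < N, t * ‖deriv f^[i] v‖ ≤ θ / ((i : ℝ) + 1) ^ 2 * (s * dC Cr (f^[i] v)))
    {w : ℂ} (hw : ‖w - v‖ ≤ t / 2) :
    DifferentiableAt ℂ f^[N] w ∧
      ‖deriv f^[N] w - deriv f^[N] v‖ ≤ 16 * C₂ * θ * ‖deriv f^[N] v‖ := by
  have key : ∀ w' : ℂ, ‖w' - v‖ ≤ t → DifferentiableAt ℂ f^[N] w' ∧
      ‖f^[N] w' - f^[N] v - deriv f^[N] v * (w' - v)‖ ≤ 8 * C₂ * θ * t * ‖deriv f^[N] v‖ := by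
    intro w' hw'
    have h0 := evolve hFOL hF hO hθ h16 h4 (N := N) (t := t) (r := 0) ht le_rfl hN (a := 0)
      (w := w') (by simpa using hF.ρ₁_pos) (by
        rw [norm_zero, zero_pow (by have := hF.q_pos; omega)]) (by simpa using hw')
    obtain ⟨e1, _, e3, _, _⟩ := h0
    simp only [hF.zero, sub_self, zero_div, Finset.sum_const_zero, add_zero] at e1 e3
    exact ⟨iter_diff hU hf w' N fun i hi => hthick (e1 i hi).2.1, e3⟩
  refine ⟨(key w (by linarith)).1, ?_⟩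
  set H : ℂ → ℂ := fun w' => f^[N] w' - f^[N] v - deriv f^[N] v * (w' - v) with hH
  have hdH : ∀ w' : ℂ, ‖w' - v‖ ≤ t → HasDerivAt H (deriv f^[N] w' - deriv f^[N] v) w' := by
    intro w' hw'
    have h1 : HasDerivAt H (deriv f^[N] w' - deriv f^[N] v * 1) w' :=
      ((key w' hw').1.hasDerivAt.sub_const _).sub
        (((hasDerivAt_id w').sub_const v).const_mul _)
    rwa [mul_one] at h1
  have hsub : ∀ w' ∈ closedBall w (t / 2), ‖w' - v‖ ≤ t := by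
    intro w' hw'
    have h1 : ‖w' - w‖ ≤ t / 2 := by simpa [dist_eq_norm] using hw'
    calc ‖w' - v‖ = ‖(w' - w) + (w - v)‖ := by ring_nf
      _ ≤ ‖w' - w‖ + ‖w - v‖ := norm_add_le _ _
      _ ≤ t := by linarith
  have hdc : DiffContOnCl ℂ H (ball w (t / 2)) := by
    apply DifferentiableOn.diffContOnCl_ball (U := closedBall w (t / 2)) _ subset_rfl
    exact fun w' hw' => (hdH w' (hsub w' hw')).differentiableAt.differentiableWithinAt
  have hb := Complex.norm_deriv_le_of_forall_mem_sphere_norm_le (f := H) (c := w) (R := t / 2)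
    (C := 8 * C₂ * θ * t * ‖deriv f^[N] v‖) (by linarith) hdc
    (fun z hz => (key z (hsub z (sphere_subset_closedBall hz))).2)
  rw [(hdH w (by linarith)).deriv] at hb
  calc _ ≤ 8 * C₂ * θ * t * ‖deriv f^[N] v‖ / (t / 2) := hb
    _ = 16 * C₂ * θ * ‖deriv f^[N] v‖ := by field_simp; ring

/-- Cauchy estimate for the derivative on a smaller ball. -/
lemma cauchy {g : ℂ → ℂ} {B : Set ℂ} (hg : DifferentiableOn ℂ g B)
    {a : ℂ} {R M : ℝ} (hR : 0 < R) (hsub : closedBall a R ⊆ B) (hM : ∀ b ∈ B, ‖g b‖ ≤ M) :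
    ‖deriv g a‖ ≤ M / R :=
  Complex.norm_deriv_le_of_forall_mem_sphere_norm_le hR
    (hg.diffContOnCl_ball hsub) (fun z hz => hM z (hsub (sphere_subset_closedBall hz)))

lemma ev_rpow {a : ℝ} (ha : 0 < a) (C : ℝ) {ε : ℝ} (hε : 0 < ε) :
    ∀ᶠ r in 𝓝[>] (0 : ℝ), C * r ^ a ≤ ε := by
  have h1 : Tendsto (fun r : ℝ => C * r ^ a) (𝓝[>] 0) (𝓝 (C * (0 : ℝ) ^ a)) :=
    ((Real.continuousAt_rpow_const 0 a (Or.inr ha.le)).tendsto.const_mul C).mono_left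
      nhdsWithin_le_nhds
  rw [Real.zero_rpow ha.ne', mul_zero] at h1
  exact (h1.eventually (gt_mem_nhds hε)).mono fun _ h => h.le

lemma ev_log {a : ℝ} (ha : 0 < a) (C : ℝ) {ε : ℝ} (hε : 0 < ε) :
    ∀ᶠ r in 𝓝[>] (0 : ℝ), r ^ a * (C * Real.log (1 / r) + 1) ^ 2 ≤ ε := by
  have h1 : Tendsto (fun r : ℝ => Real.log r * r ^ (a / 2)) (𝓝[>] 0) (𝓝 0) :=
    tendsto_log_mul_rpow_nhdsGT_zero (by linarith)
  have h2 : Tendsto (fun r : ℝ => r ^ (a / 2)) (𝓝[>] 0) (𝓝 0) := by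
    have := ((Real.continuousAt_rpow_const 0 (a / 2) (Or.inr (by linarith))).tendsto).mono_left
      (nhdsWithin_le_nhds (s := Ioi 0))
    rwa [Real.zero_rpow (by linarith)] at this
  have h3 : Tendsto (fun r : ℝ => (-C * (Real.log r * r ^ (a / 2)) + r ^ (a / 2)) ^ 2)
      (𝓝[>] 0) (𝓝 ((-C * 0 + 0) ^ 2)) := ((h1.const_mul (-C)).add h2).pow 2
  have h4 : ((-C * 0 + 0 : ℝ)) ^ 2 = 0 := by ring
  rw [h4] at h3
  filter_upwards [h3.eventually (gt_mem_nhds hε), self_mem_nhdsWithin] with r hr hr0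
  have hr0' : (0 : ℝ) < r := hr0
  have e1 : r ^ a = r ^ (a / 2) * r ^ (a / 2) := by
    rw [← Real.rpow_add hr0']; congr 1; ring
  have e2 : r ^ a * (C * Real.log (1 / r) + 1) ^ 2 =
      (-C * (Real.log r * r ^ (a / 2)) + r ^ (a / 2)) ^ 2 := by
    rw [e1, one_div, Real.log_inv]; ring
  rw [e2]
  exact hr.le

end Pool.Agent.H963.AD211
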